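import Mathlib
import Pool.Agent.Helper517.FIrrA

set_option autoImplicit false

namespace Pool.Agent.Q257.RI

open Finset
open Pool.Agent.Helper517.FIrr (IsEmb toSub toSub_adj Aut emb_comp exists_aut)

variable {n : ℕ}

/-- subgraphs isomorphic to `F` with the root at `v` -/
def Rt (F : SimpleGraph (Fin n)) {V : Type} (G : SimpleGraph V) (r : Fin n) (v : V) :
    Set G.Subgraph :=
  {H : G.Subgraph | ∃ φ : F ≃g H.coe, ((φ r : H.verts) : V) = v}

open Classical in
/-- filter with the classical decision procedure -/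
noncomputable def fl {X : Type} (A : Finset X) (p : X → Prop) : Finset X := A.filter p

theorem mem_fl {X : Type} {A : Finset X} {p : X → Prop} {x : X} : x ∈ fl A p ↔ x ∈ A ∧ p x := by
  classical
  simp [fl]

theorem fl_sub {X : Type} (A : Finset X) (p : X → Prop) : fl A p ⊆ A := fun _ h => (mem_fl.1 h).1

theorem fl_empty {X : Type} {A : Finset X} {p : X → Prop} (h : ∀ x ∈ A, ¬ p x) : fl A p = ∅ := by
  rw [Finset.eq_empty_iff_forall_notMem]
  intro x hx
  rw [mem_fl] at hx
  exact h x hx.1 hx.2

open Classical in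
/-- injective homomorphisms with the root at `v` -/
noncomputable def Em (F : SimpleGraph (Fin n)) {V : Type} [Fintype V] (G : SimpleGraph V)
    (r : Fin n) (v : V) : Finset (Fin n → V) :=
  univ.filter (fun φ : Fin n → V => IsEmb F G φ ∧ φ r = v)

theorem mem_Em {F : SimpleGraph (Fin n)} {V : Type} [Fintype V] {G : SimpleGraph V}
    {r : Fin n} {v : V} {φ : Fin n → V} : φ ∈ Em F G r v ↔ IsEmb F G φ ∧ φ r = v := by
  simp [Em]

theorem E_eq (F : SimpleGraph (Fin n)) {V : Type} [Fintype V] (G : SimpleGraph V)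
    (r : Fin n) (v : V) : (Em F G r v).card =
      (Rt F G r v).ncard * Nat.card {σ : Equiv.Perm (Fin n) // Aut F σ ∧ σ r = r} := by
  classical
  have hfin : (Rt F G r v).Finite := Set.toFinite _
  rw [Set.ncard_eq_toFinset_card _ hfin]
  rw [Finset.card_eq_sum_card_fiberwise (f := toSub F G) (t := hfin.toFinset)]
  · rw [← smul_eq_mul, ← Finset.sum_const]
    refine Finset.sum_congr rfl (fun H hH => ?_)
    rw [Set.Finite.mem_toFinset] at hH
    obtain ⟨e, he⟩ := hH
    obtain ⟨φ, hφdef⟩ : ∃ φ : Fin n → V, φ = fun a => ((e a : H.verts) : V) := ⟨_, rfl⟩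
    have hφ : IsEmb F G φ := by
      rw [hφdef]
      refine ⟨fun a b hab => e.injective (Subtype.ext hab), fun a b hab => ?_⟩
      have : H.coe.Adj (e a) (e b) := e.map_rel_iff.2 hab
      exact H.adj_sub this
    have hφH : toSub F G φ = H := by
      rw [hφdef]
      ext x y
      · constructor
        · rintro ⟨a, rfl⟩
          exact (e a).2
        · intro hx
          exact ⟨e.symm ⟨x, hx⟩, by simp⟩
      · constructor
        · rintro ⟨_, a, b, hab, rfl, rfl⟩
          exact e.map_rel_iff.2 hab
        · intro hxy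
          refine ⟨H.adj_sub hxy, e.symm ⟨x, H.edge_vert hxy⟩, e.symm ⟨y, H.edge_vert hxy.symm⟩, ?_,
            by simp, by simp⟩
          apply e.symm.map_rel_iff.2
          exact hxy
    have hφr : φ r = v := by rw [hφdef]; exact he
    rw [Nat.card_eq_fintype_card, Fintype.card_subtype]
    symm
    refine Finset.card_bij (fun σ _ => φ ∘ σ) ?_ ?_ ?_
    · intro σ hσ
      rw [mem_filter] at hσ
      obtain ⟨h1, h2⟩ := emb_comp hφ hσ.2.1
      rw [mem_filter, mem_Em]
      refine ⟨⟨h1, ?_⟩, h2.trans hφH⟩
      rw [Function.comp_apply, hσ.2.2, hφr]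
    · intro σ _ τ _ hst
      ext a
      have := congrFun hst a
      exact congrArg Fin.val (hφ.1 this)
    · intro ψ hψ
      rw [mem_filter, mem_Em] at hψ
      obtain ⟨⟨h1, h1r⟩, h2⟩ := hψ
      obtain ⟨σ, hσ, hσ'⟩ := exists_aut hφ h1 (h2.trans hφH.symm)
      refine ⟨σ, mem_filter.2 ⟨mem_univ _, hσ, ?_⟩, hσ'⟩
      apply hφ.1
      have := congrFun hσ' r
      rw [Function.comp_apply] at this
      rw [this, h1r, hφr]
  · intro φ hφ
    rw [Finset.mem_coe, mem_Em] at hφ
    rw [Finset.mem_coe, Set.Finite.mem_toFinset]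
    refine ⟨⟨Equiv.ofInjective φ hφ.1.1, ?_⟩, hφ.2⟩
    intro a b
    exact toSub_adj hφ.1 a b

/-- transfer to `Fin m` -/
theorem exists_fin (F : SimpleGraph (Fin n)) (r : Fin n) {V : Type} [Fintype V]
    (G : SimpleGraph V) (hinj : Function.Injective (fun v => (Em F G r v).card)) (N : ℕ)
    (h2 : N ≤ Fintype.card V) :
    ∃ (m : ℕ) (G' : SimpleGraph (Fin m)), N ≤ m ∧
        Function.Injective (fun v : Fin m => (Rt F G' r v).ncard) := by
  classical
  set e := Fintype.equivFin V with he
  refine ⟨Fintype.card V, G.comap e.symm, h2, ?_⟩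
  have hN : ∀ v, (Em F (G.comap e.symm) r v).card = (Em F G r (e.symm v)).card := by
    intro v
    refine Finset.card_bij (fun φ _ => e.symm ∘ φ) ?_ ?_ ?_
    · intro φ hφ
      rw [mem_Em] at hφ ⊢
      obtain ⟨⟨h1, h2⟩, ha⟩ := hφ
      exact ⟨⟨e.symm.injective.comp h1, fun a b hab => h2 a b hab⟩, by simp [ha]⟩
    · intro φ _ ψ _ h
      funext a
      exact e.symm.injective (congrFun h a)
    · intro ψ hψ
      rw [mem_Em] at hψ
      obtain ⟨⟨h1, h2⟩, ha⟩ := hψ
      refine ⟨e ∘ ψ, ?_, by funext a; simp⟩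
      rw [mem_Em]
      refine ⟨⟨e.injective.comp h1, fun a b hab => ?_⟩, by simp [ha]⟩
      simpa using h2 a b hab
  intro u v huv
  have : (Em F (G.comap e.symm) r u).card = (Em F (G.comap e.symm) r v).card := by
    rw [E_eq, E_eq]
    simp only at huv
    rw [huv]
  rw [hN, hN] at this
  exact e.symm.injective (hinj this)

section cmp

variable {X : Type}

/-- the basic comparison -/
theorem inj_cmp (f : X → X) (A A' B B' : Finset X) (hB : B' ⊆ B)
    (hf : ∀ x ∈ A, x ∉ A' → ∀ y ∈ A, y ∉ A' → f x = f y → x = y)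
    (h : ∀ x ∈ A, x ∉ A' → f x ∈ B ∧ f x ∉ B') : A.card + B'.card ≤ B.card + A'.card := by
  classical
  have h1 : (A \ A').card ≤ (B \ B').card := by
    apply Finset.card_le_card_of_injOn f
    · intro x hx
      rw [Finset.mem_coe, mem_sdiff] at hx ⊢
      exact h x hx.1 hx.2
    · intro x hx y hy hxy
      rw [Finset.mem_coe, mem_sdiff] at hx hy
      exact hf x hx.1 hx.2 y hy.1 hy.2 hxy
  have h2 : A.card ≤ (A \ A').card + A'.card := by
    rw [← Finset.card_sdiff_add_card_inter A A']
    have := Finset.card_le_card (Finset.inter_subset_right : A ∩ A' ⊆ A')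
    omega
  have h3 : (B \ B').card + B'.card = B.card := Finset.card_sdiff_add_card_eq_card hB
  omega

end cmp

section swap

variable (F : SimpleGraph (Fin n)) {V : Type} [Fintype V] (G : SimpleGraph V)
  (r : Fin n)

/-- nested comparison: `u` and `v` have the same neighbours, except that `v` is adjacent to the
vertices of `D`, too. -/
theorem nested (u v : V) (D : Finset V)
    (hD : ∀ z, z ∈ D ↔ (G.Adj v z ∧ ¬ G.Adj u z ∧ z ≠ u))
    (hsub : ∀ z, z ≠ v → G.Adj u z → G.Adj v z) :
    (Em F G r u).card + (fl (Em F G r v) (fun φ => ∃ s, F.Adj r s ∧ φ s ∈ D)).card ≤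
      (Em F G r v).card +
        (fl (Em F G r u) (fun φ => ∃ x y, F.Adj x y ∧ φ x = v ∧ φ y ∈ D)).card := by
  classical
  apply inj_cmp (fun φ => Equiv.swap u v ∘ φ)
  · exact fl_sub _ _
  · intro x _ _ y _ _ hxy
    funext a
    exact (Equiv.swap u v).injective (congrFun hxy a)
  · intro φ hφ hφ'
    rw [mem_Em] at hφ
    rw [mem_fl, mem_Em] at hφ'
    obtain ⟨⟨hinj, hadj⟩, hr⟩ := hφ
    have hb : ∀ x y, F.Adj x y → φ x = v → φ y ∉ D := by
      intro x y hxy hx hy
      exact hφ' ⟨⟨⟨hinj, hadj⟩, hr⟩, x, y, hxy, hx, hy⟩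
    have hvD : v ∉ D := fun h => by
      rw [hD] at h
      exact G.loopless.irrefl v h.1
    have huD : u ∉ D := fun h => by
      rw [hD] at h
      exact h.2.2 rfl
    -- edges at `u`
    have key : ∀ y, F.Adj r y → G.Adj v (Equiv.swap u v (φ y)) := by
      intro y hy
      have h1 := hadj r y hy
      rw [hr] at h1
      by_cases hyv : φ y = v
      · rw [hyv, Equiv.swap_apply_right]
        rw [hyv] at h1
        exact h1.symm
      · have hyu : φ y ≠ u := fun h => by
          rw [h] at h1
          exact G.loopless.irrefl u h1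
        rw [Equiv.swap_apply_of_ne_of_ne hyu hyv]
        exact hsub _ hyv h1
    have key2 : ∀ x y, F.Adj x y → φ x = v → φ y ≠ u → G.Adj u (Equiv.swap u v (φ y)) := by
      intro x y hxy hx hyu
      have h1 := hadj x y hxy
      rw [hx] at h1
      have hyv : φ y ≠ v := fun h => by
        rw [h] at h1
        exact G.loopless.irrefl v h1
      rw [Equiv.swap_apply_of_ne_of_ne hyu hyv]
      by_contra hc
      exact hb x y hxy hx ((hD _).2 ⟨h1, hc, hyu⟩)
    have hru : ∀ y, φ y = u → y = r := fun y h => hinj (h.trans hr.symm)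
    refine ⟨?_, ?_⟩
    · rw [mem_Em]
      refine ⟨⟨(Equiv.swap u v).injective.comp hinj, ?_⟩, ?_⟩
      · intro a b hab
        simp only [Function.comp]
        by_cases ha : φ a = u
        · rw [ha, Equiv.swap_apply_left]
          have := hru a ha
          subst this
          exact key b hab
        · by_cases hb' : φ b = u
          · rw [hb', Equiv.swap_apply_left]
            have := hru b hb'
            subst this
            exact (key a hab.symm).symm
          · by_cases hav : φ a = v
            · rw [hav, Equiv.swap_apply_right]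
              exact key2 a b hab hav hb'
            · by_cases hbv : φ b = v
              · rw [hbv, Equiv.swap_apply_right]
                exact (key2 b a hab.symm hbv ha).symm
              · rw [Equiv.swap_apply_of_ne_of_ne ha hav, Equiv.swap_apply_of_ne_of_ne hb' hbv]
                exact hadj a b hab
      · simp [hr]
    · intro h
      rw [mem_fl] at h
      obtain ⟨_, s, hs, hsD⟩ := h
      simp only [Function.comp] at hsD
      have h1 := hadj r s hs
      rw [hr] at h1
      by_cases hsu : φ s = u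
      · rw [hsu] at h1
        exact G.loopless.irrefl u h1
      · by_cases hsv : φ s = v
        · rw [hsv, Equiv.swap_apply_right] at hsD
          exact huD hsD
        · rw [Equiv.swap_apply_of_ne_of_ne hsu hsv, hD] at hsD
          exact hsD.2.1 h1

end swap

end Pool.Agent.Q257.RI
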