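import Pool.Agent.Q257.RI.Exch

set_option autoImplicit false
set_option linter.unusedSectionVars false

namespace Pool.Agent.Q257.RI

open Finset
open Pool.Agent.Helper517.FIrr (IsEmb)

variable {n : ℕ} (F : SimpleGraph (Fin n)) {V : Type} [Fintype V]
  (G : SimpleGraph V) (r : Fin n)

theorem bad1_card (u v : V) (D : Finset V) (huv : u ≠ v) (huD : u ∉ D) (hvD : v ∉ D)
    (x y : Fin n) :
    (fl (Em F G r u) (fun φ => F.Adj x y ∧ φ x = v ∧ φ y ∈ D)).card ≤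
      D.card * (Fintype.card V) ^ (n - 3) := by
  by_cases hxy : x = y
  · rw [fl_empty]
    · simp
    · rintro φ _ ⟨h, _⟩
      exact h.ne hxy
  by_cases hxr : x = r
  · rw [fl_empty]
    · simp
    · rintro φ hφ ⟨_, h, _⟩
      rw [mem_Em] at hφ
      rw [hxr, hφ.2] at h
      exact huv h
  by_cases hyr : y = r
  · rw [fl_empty]
    · simp
    · rintro φ hφ ⟨_, _, h⟩
      rw [mem_Em] at hφ
      rw [hyr, hφ.2] at h
      exact huD h
  apply upper3 r x y (Ne.symm hxr) (Ne.symm hyr) hxy u v D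
  intro φ hφ
  rw [mem_fl, mem_Em] at hφ
  exact ⟨hφ.1.2, hφ.2.2.1, hφ.2.2.2⟩

theorem sum_pairs (A : Finset (Fin n → V)) (p : Fin n → Fin n → (Fin n → V) → Prop) (K : ℕ)
    (h : ∀ x y, (fl A (p x y)).card ≤ K) :
    (fl A (fun φ => ∃ x y, p x y φ)).card ≤ n ^ 2 * K := by
  classical
  have h1 : fl A (fun φ => ∃ x y, p x y φ) ⊆
      (univ : Finset (Fin n × Fin n)).biUnion (fun q => fl A (p q.1 q.2)) := by
    intro φ hφ
    rw [mem_fl] at hφ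
    obtain ⟨hA, x, y, hxy⟩ := hφ
    exact mem_biUnion.2 ⟨(x, y), mem_univ _, mem_fl.2 ⟨hA, hxy⟩⟩
  refine (Finset.card_le_card h1).trans (Finset.card_biUnion_le.trans ?_)
  refine (Finset.sum_le_card_nsmul _ _ K (fun q _ => h q.1 q.2)).trans ?_
  rw [Finset.card_univ, Fintype.card_prod, Fintype.card_fin, smul_eq_mul, ← pow_two]

/-- nested comparison, quantitative -/
theorem nested_lt (u v : V) (D : Finset V) (huv : u ≠ v)
    (hD : ∀ z, z ∈ D ↔ (G.Adj v z ∧ ¬ G.Adj u z ∧ z ≠ u))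
    (hsub : ∀ z, z ≠ v → G.Adj u z → G.Adj v z)
    (hB : n ^ 2 * (D.card * (Fintype.card V) ^ (n - 3)) <
      (fl (Em F G r v) (fun φ => ∃ s, F.Adj r s ∧ φ s ∈ D)).card) :
    (Em F G r u).card < (Em F G r v).card := by
  have h1 := nested F G r u v D hD hsub
  have h2 : (fl (Em F G r u) (fun φ => ∃ x y, F.Adj x y ∧ φ x = v ∧ φ y ∈ D)).card ≤
      n ^ 2 * (D.card * (Fintype.card V) ^ (n - 3)) := by
    apply sum_pairs (Em F G r u) (fun x y φ => F.Adj x y ∧ φ x = v ∧ φ y ∈ D)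
    intro x y
    apply bad1_card F G r u v D huv
    · rw [hD]
      exact fun h => h.2.2 rfl
    · rw [hD]
      exact fun h => G.loopless.irrefl v h.1
  omega

/-- exchange comparison, quantitative -/
theorem exchange_lt (u v α β : V) (D : Finset V) (huv : u ≠ v) (hαβ : α ≠ β) (hαu : α ≠ u)
    (hαv : α ≠ v) (hβu : β ≠ u) (hβv : β ≠ v)
    (hvα : ¬ G.Adj v α) (hvβ : G.Adj v β) (huβ : ¬ G.Adj u β)
    (hD : ∀ z, z ∈ D ↔ (G.Adj v z ∧ ¬ G.Adj u z ∧ z ≠ u))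
    (hsub : ∀ z, z ≠ v → z ≠ α → G.Adj u z → G.Adj v z)
    (B : Finset (Fin n → V))
    (hB : B = fl (Em F G r v) (fun φ => ∃ s y, F.Adj r s ∧ φ s = β ∧ F.Adj s y ∧
        y ≠ r ∧ ¬ G.Adj α (φ y)))
    (h3 : ∀ s y, F.Adj r s → F.Adj s y → y ≠ r →
      2 * n ^ 2 * (fl (Em F G r u) (fun φ => φ s = α ∧ φ y ≠ β ∧ G.Adj α (φ y) ∧
        ¬ G.Adj β (φ y))).card ≤ B.card)
    (hmain : 2 * n ^ 2 * ((D.card + 1) * (Fintype.card V) ^ (n - 3)) < B.card) :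
    (Em F G r u).card < (Em F G r v).card := by
  classical
  have h1 := exchange F G r u v α β D huv hαβ hαu hαv hβu hβv hvα hvβ huβ hD hsub
  rw [← hB] at h1
  set A1 := fl (Em F G r u) (fun φ => ∃ x y, F.Adj x y ∧ φ x = v ∧ φ y ∈ D) with hA1
  set A2 := fl (Em F G r u) (fun φ => ∃ s x, F.Adj r s ∧ φ s = α ∧ φ x = β) with hA2
  set A3 := fl (Em F G r u) (fun φ => ∃ s y, F.Adj r s ∧ F.Adj s y ∧ y ≠ r ∧ φ s = α ∧
    φ y ≠ β ∧ G.Adj α (φ y) ∧ ¬ G.Adj β (φ y)) with hA3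
  have c1 : A1.card ≤ n ^ 2 * (D.card * (Fintype.card V) ^ (n - 3)) := by
    apply sum_pairs (Em F G r u) (fun x y φ => F.Adj x y ∧ φ x = v ∧ φ y ∈ D)
    intro x y
    apply bad1_card F G r u v D huv
    · rw [hD]
      exact fun h => h.2.2 rfl
    · rw [hD]
      exact fun h => G.loopless.irrefl v h.1
  have c2 : A2.card ≤ n ^ 2 * (Fintype.card V) ^ (n - 3) := by
    apply sum_pairs (Em F G r u) (fun s x φ => F.Adj r s ∧ φ s = α ∧ φ x = β)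
    intro s x
    by_cases hsx : s = x
    · rw [fl_empty]
      · simp
      · rintro φ _ ⟨_, h2, h3⟩
        rw [hsx, h3] at h2
        exact hαβ h2.symm
    by_cases hsr : s = r
    · rw [fl_empty]
      · simp
      · rintro φ _ ⟨h2, _, _⟩
        exact h2.ne hsr.symm
    by_cases hxr : x = r
    · rw [fl_empty]
      · simp
      · rintro φ hφ ⟨_, _, h3⟩
        rw [mem_Em] at hφ
        rw [hxr, hφ.2] at h3
        exact hβu h3.symm
    have := upper3 r s x (Ne.symm hsr) (Ne.symm hxr) hsx u α {β}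
      (fl (Em F G r u) (fun φ => F.Adj r s ∧ φ s = α ∧ φ x = β)) (by
        intro φ hφ
        rw [mem_fl, mem_Em] at hφ
        exact ⟨hφ.1.2, hφ.2.2.1, mem_singleton.2 hφ.2.2.2⟩)
    simpa using this
  have c3 : 2 * A3.card ≤ B.card := by
    have h4 : 2 * n ^ 2 * A3.card ≤ n ^ 2 * B.card := by
      have h5 : A3 ⊆ (univ : Finset (Fin n × Fin n)).biUnion (fun q => fl (Em F G r u) (fun φ => F.Adj r q.1 ∧ F.Adj q.1 q.2 ∧ q.2 ≠ r ∧ φ q.1 = α ∧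
            φ q.2 ≠ β ∧ G.Adj α (φ q.2) ∧ ¬ G.Adj β (φ q.2))) := by
        intro φ hφ
        rw [hA3, mem_fl] at hφ
        obtain ⟨hA, x, y, hxy⟩ := hφ
        exact mem_biUnion.2 ⟨(x, y), mem_univ _, mem_fl.2 ⟨hA, hxy⟩⟩
      have h6 := (Finset.card_le_card h5).trans Finset.card_biUnion_le
      have h7 : ∀ q ∈ (univ : Finset (Fin n × Fin n)), 2 * n ^ 2 * (fl (Em F G r u) (fun φ => F.Adj r q.1 ∧ F.Adj q.1 q.2 ∧ q.2 ≠ r ∧ φ q.1 = α ∧
            φ q.2 ≠ β ∧ G.Adj α (φ q.2) ∧ ¬ G.Adj β (φ q.2))).card ≤ B.card := by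
        intro q _
        by_cases hq : F.Adj r q.1 ∧ F.Adj q.1 q.2 ∧ q.2 ≠ r
        · refine le_trans (Nat.mul_le_mul_left _ (Finset.card_le_card ?_))
            (h3 q.1 q.2 hq.1 hq.2.1 hq.2.2)
          intro φ hφ
          rw [mem_fl] at hφ ⊢
          exact ⟨hφ.1, hφ.2.2.2.2⟩
        · rw [fl_empty]
          · simp
          · rintro φ _ ⟨g1, g2, g3, _⟩
            exact hq ⟨g1, g2, g3⟩
      calc 2 * n ^ 2 * A3.card ≤ 2 * n ^ 2 * ∑ q : Fin n × Fin n, (fl (Em F G r u) (fun φ => F.Adj r q.1 ∧ F.Adj q.1 q.2 ∧ q.2 ≠ r ∧ φ q.1 = α ∧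
            φ q.2 ≠ β ∧ G.Adj α (φ q.2) ∧ ¬ G.Adj β (φ q.2))).card := Nat.mul_le_mul_left _ h6
        _ = ∑ q : Fin n × Fin n, 2 * n ^ 2 * (fl (Em F G r u) (fun φ => F.Adj r q.1 ∧ F.Adj q.1 q.2 ∧ q.2 ≠ r ∧ φ q.1 = α ∧
            φ q.2 ≠ β ∧ G.Adj α (φ q.2) ∧ ¬ G.Adj β (φ q.2))).card := Finset.mul_sum _ _ _
        _ ≤ ∑ _q : Fin n × Fin n, B.card := Finset.sum_le_sum h7
        _ = n ^ 2 * B.card := by
          rw [Finset.sum_const, Finset.card_univ, Fintype.card_prod, Fintype.card_fin, smul_eq_mul,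
            ← pow_two]
    have hn : 0 < n ^ 2 := by
      have : 0 < n := Fin.pos r
      positivity
    nlinarith
  have c4 : (fl (Em F G r u) (fun φ => (∃ x y, F.Adj x y ∧ φ x = v ∧ φ y ∈ D) ∨
          (∃ s, F.Adj r s ∧ φ s = α ∧ ((∃ x, φ x = β) ∨
            ∃ y, F.Adj s y ∧ y ≠ r ∧ G.Adj α (φ y) ∧ ¬ G.Adj β (φ y))))).card ≤
      A1.card + A2.card + A3.card := by
    have h5 : fl (Em F G r u) (fun φ => (∃ x y, F.Adj x y ∧ φ x = v ∧ φ y ∈ D) ∨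
          (∃ s, F.Adj r s ∧ φ s = α ∧ ((∃ x, φ x = β) ∨
            ∃ y, F.Adj s y ∧ y ≠ r ∧ G.Adj α (φ y) ∧ ¬ G.Adj β (φ y)))) ⊆ A1 ∪ A2 ∪ A3 := by
      intro φ hφ
      rw [mem_fl] at hφ
      rw [mem_union, mem_union, hA1, hA2, hA3, mem_fl, mem_fl, mem_fl]
      obtain ⟨hE, h | ⟨s, hs, hsα, ⟨x, hx⟩ | ⟨y, h1, h2, h3, h4⟩⟩⟩ := hφ
      · exact Or.inl (Or.inl ⟨hE, h⟩)
      · exact Or.inl (Or.inr ⟨hE, s, x, hs, hsα, hx⟩)
      · by_cases hyβ : φ y = β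
        · exact Or.inl (Or.inr ⟨hE, s, y, hs, hsα, hyβ⟩)
        · exact Or.inr ⟨hE, s, y, hs, h1, h2, hsα, hyβ, h3, h4⟩
    refine (Finset.card_le_card h5).trans ?_
    refine (Finset.card_union_le _ _).trans ?_
    have := Finset.card_union_le A1 A2
    omega
  have c5 : n ^ 2 * (D.card * (Fintype.card V) ^ (n - 3)) + n ^ 2 * (Fintype.card V) ^ (n - 3) =
      n ^ 2 * ((D.card + 1) * (Fintype.card V) ^ (n - 3)) := by ring
  have c6 : 2 * (n ^ 2 * ((D.card + 1) * (Fintype.card V) ^ (n - 3))) =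
      2 * n ^ 2 * ((D.card + 1) * (Fintype.card V) ^ (n - 3)) := by ring
  omega

end Pool.Agent.Q257.RI
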