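import Pool.Agent.Q257.RI.Steps

set_option autoImplicit false

namespace Pool.Agent.Q257.RI

open Finset
open Pool.Agent.Helper517.FIrr (IsEmb)

variable {n : ℕ}

theorem exists_par (hn : 3 ≤ n) (N : ℕ) :
    ∃ κ k b c M P C3 : ℕ, Par n κ k b c M P C3 ∧ N ≤ P := by
  obtain ⟨e0, he0⟩ : ∃ e0, e0 = (8 * n) ^ (n + 2) := ⟨_, rfl⟩
  obtain ⟨C3, hC3⟩ : ∃ C3, C3 = 2 * n ^ 2 * e0 := ⟨_, rfl⟩
  obtain ⟨C4, hC4⟩ : ∃ C4, C4 = 16 * n ^ 3 * C3 ^ (n + 1) := ⟨_, rfl⟩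
  obtain ⟨κ, hκ⟩ : ∃ κ, κ = 4 * n ^ 2 * C3 * C4 ^ (n - 3) + 1 + N := ⟨_, rfl⟩
  obtain ⟨k, hk⟩ : ∃ k, k = n * κ := ⟨_, rfl⟩
  obtain ⟨b, hb⟩ : ∃ b, b = e0 * k := ⟨_, rfl⟩
  obtain ⟨c, hc⟩ : ∃ c, c = 2 * (n * b) := ⟨_, rfl⟩
  obtain ⟨M, hM⟩ : ∃ M, M = 2 * n ^ 2 * (c * C3 ^ n) := ⟨_, rfl⟩
  obtain ⟨P, hP⟩ : ∃ P, P = 4 * (n * M) := ⟨_, rfl⟩
  have hn0 : 0 < n := by omega
  have he0' : 1 ≤ e0 := by rw [he0]; exact Nat.one_le_pow _ _ (by omega)
  have h8e : 8 * n ≤ e0 := by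
    rw [he0]
    calc 8 * n = (8 * n) ^ 1 := (pow_one _).symm
      _ ≤ (8 * n) ^ (n + 2) := Nat.pow_le_pow_right (by omega) (by omega)
  have h2n : 1 ≤ 2 * n ^ 2 := by nlinarith
  have hC31 : e0 ≤ C3 := by rw [hC3]; nlinarith
  have hC3p : 1 ≤ C3 ^ n := Nat.one_le_pow _ _ (by omega)
  have hcκ : c = C3 * κ := by rw [hc, hb, hk, hC3]; ring
  have h2P : 2 * P = C4 * κ := by
    rw [hP, hM, hcκ, hC4, pow_succ]
    ring
  have hcM : c ≤ M := by
    rw [hM]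
    calc c = 1 * (c * 1) := by ring
      _ ≤ 2 * n ^ 2 * (c * C3 ^ n) := Nat.mul_le_mul h2n (Nat.mul_le_mul_left _ hC3p)
  have hκ1 : 1 ≤ κ := by omega
  have hκk : κ ≤ k := by rw [hk]; nlinarith
  have hkb : k ≤ b := by rw [hb]; nlinarith
  have hbc : b ≤ c := by rw [hc]; nlinarith
  have hk3 : 3 ≤ k := by rw [hk]; nlinarith
  have hC4κ : 4 * n ^ 2 * C3 * C4 ^ (n - 3) < κ := by omega
  have hpow : (2 * P) ^ (n - 3) = C4 ^ (n - 3) * κ ^ (n - 3) := by rw [h2P, mul_pow]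
  refine ⟨κ, k, b, c, M, P, C3, ⟨hn, hκ1, hk, hc, hP, hcM, by omega, by omega, ?_, le_of_eq hM.symm,
    le_of_eq hcκ, by omega, ?_, ?_, ?_⟩, ?_⟩
  · have h1 : k ≤ k * (8 * n) ^ n := by
      have : 1 ≤ (8 * n) ^ n := Nat.one_le_pow _ _ (by omega)
      nlinarith
    have h2 : n * b = 64 * n ^ 3 * (k * (8 * n) ^ n) := by
      rw [hb, he0, pow_add]
      ring
    rw [h2]
    have h3 : 2 * k + 2 ≤ 4 * (k * (8 * n) ^ n) := by omega
    have h4 : 2 * n ^ 2 + 4 ≤ 64 * n ^ 3 := by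
      have h5 : n ^ 3 = n * n ^ 2 := by ring
      have h6 : 1 ≤ n ^ 2 := by nlinarith
      rw [h5]
      nlinarith
    calc 2 * n ^ 2 * (k * (8 * n) ^ n) + 2 * k + 2
        ≤ 2 * n ^ 2 * (k * (8 * n) ^ n) + 4 * (k * (8 * n) ^ n) := by omega
      _ = (2 * n ^ 2 + 4) * (k * (8 * n) ^ n) := by ring
      _ ≤ 64 * n ^ 3 * (k * (8 * n) ^ n) := Nat.mul_le_mul_right _ h4
  · rw [hpow]
    have h1 : κ ^ (n - 2) = κ * κ ^ (n - 3) := by
      rw [← pow_succ']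
      congr 1
      omega
    rw [h1]
    have h2 : 2 * n ^ 2 * (2 * (C4 ^ (n - 3) * κ ^ (n - 3))) =
        (4 * n ^ 2 * 1 * C4 ^ (n - 3)) * κ ^ (n - 3) := by ring
    rw [h2]
    apply Nat.mul_lt_mul_of_pos_right _ (Nat.pow_pos hκ1)
    refine lt_of_le_of_lt ?_ hC4κ
    apply Nat.mul_le_mul_right
    apply Nat.mul_le_mul_left
    omega
  · rw [hpow, hcκ]
    have h1 : κ ^ (n - 1) = κ * (κ * κ ^ (n - 3)) := by
      rw [← pow_succ', ← pow_succ']
      congr 1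
      omega
    rw [h1]
    have h2 : n ^ 2 * (C3 * κ * (C4 ^ (n - 3) * κ ^ (n - 3))) =
        (n ^ 2 * C3 * C4 ^ (n - 3)) * (κ * κ ^ (n - 3)) := by ring
    rw [h2]
    apply Nat.mul_lt_mul_of_pos_right _ (Nat.mul_pos hκ1 (Nat.pow_pos hκ1))
    refine lt_of_le_of_lt ?_ hC4κ
    apply Nat.mul_le_mul_right
    apply Nat.mul_le_mul_right
    omega
  · have h1 : M ^ (n - 2) = M * M ^ (n - 3) := by
      rw [← pow_succ']
      congr 1
      omega
    have h2 : 2 * P = 8 * n * M := by rw [hP]; ring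
    rw [h1, h2, mul_pow]
    have h3 : 2 * n ^ 2 * (c * ((8 * n) ^ (n - 3) * M ^ (n - 3))) =
        (2 * n ^ 2 * (c * (8 * n) ^ (n - 3))) * M ^ (n - 3) := by ring
    rw [h3]
    apply Nat.mul_le_mul_right
    rw [hM]
    apply Nat.mul_le_mul_left
    apply Nat.mul_le_mul_left
    calc (8 * n) ^ (n - 3) ≤ C3 ^ (n - 3) := Nat.pow_le_pow_left (by omega) _
      _ ≤ C3 ^ n := Nat.pow_le_pow_right (by omega) (by omega)
  · have : κ ≤ P := by
      rw [hP]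
      have : M ≤ n * M := Nat.le_mul_of_pos_left _ hn0
      omega
    omega

/-- a function on `Fin P` which increases at each step -/
theorem mono_of_step {P : ℕ} (f : Fin P → ℕ)
    (h : ∀ (i : ℕ) (h0 : i < P) (h1 : i + 1 < P), f ⟨i, h0⟩ < f ⟨i + 1, h1⟩) : StrictMono f := by
  have key : ∀ (d i : ℕ) (h0 : i < P) (h1 : i + d + 1 < P), f ⟨i, h0⟩ < f ⟨i + d + 1, h1⟩ := by
    intro d
    induction d with
    | zero => exact fun i h0 h1 => h i h0 h1
    | succ d ih =>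
      intro i h0 h1
      exact (ih i h0 (by omega)).trans (h (i + d + 1) (by omega) h1)
  intro a b hab
  have hab' : a.1 < b.1 := hab
  have := key (b.1 - a.1 - 1) a.1 a.2 (by have := b.2; omega)
  have e : (⟨a.1 + (b.1 - a.1 - 1) + 1, by have := b.2; omega⟩ : Fin P) = b := by
    apply Fin.ext
    simp only
    omega
  rw [e] at this
  exact this

/-- the case of a root which is not adjacent to a neighbour of a neighbour -/
theorem case1 (F : SimpleGraph (Fin n)) (r : Fin n) (hn : 3 ≤ n)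
    (hr : ∃ s y, F.Adj r s ∧ F.Adj s y ∧ y ≠ r ∧ ¬ F.Adj r y) (N : ℕ) :
    ∃ (m : ℕ) (G' : SimpleGraph (Fin m)), N ≤ m ∧
        Function.Injective (fun v : Fin m => (Rt F G' r v).ncard) := by
  obtain ⟨κ, k, b, c, M, P, C3, h, hN⟩ := exists_par hn N
  apply exists_fin F r (MC P c) _ N (by rw [card_VV]; omega)
  obtain ⟨b1, b2, b3, b4, b5, b6, b7, b8⟩ := h.basic
  have hP0 : 0 < P := by omega
  obtain ⟨s, y, hs, hsy, hyr, hry⟩ := hr
  have hw : StrictMono (fun i : Fin P => (Em F (MC P c) r (.inl i)).card) := by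
    apply mono_of_step
    intro i h0 h1
    by_cases hi : i + 2 ≤ c
    · exact h.step2 F r ⟨s, y, hs, hsy, hyr, hry⟩ i hi h0 h1
    · exact h.step1 F r s hs i h1 (by omega)
  have ht : StrictMono (fun i : Fin P => (Em F (MC P c) r (.inr i)).card) := by
    apply mono_of_step
    intro i h0 h1
    by_cases hi : i + 2 ≤ c
    · exact h.step5 F r s y hs hsy hyr i hi h0 h1
    · exact h.step4 F r s hs i h1 (by omega)
  have hwt : ∀ i j : Fin P, (Em F (MC P c) r (.inl i)).card < (Em F (MC P c) r (.inr j)).card := by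
    intro i j
    have h1 := h.step3 F r s hs hP0
    have h2 : (Em F (MC P c) r (.inl i)).card ≤
        (Em F (MC P c) r (.inl ⟨P - 1, by omega⟩)).card := by
      apply hw.monotone
      rw [Fin.le_def]
      have := i.2
      simp only
      omega
    have h3 : (Em F (MC P c) r (.inr ⟨0, hP0⟩)).card ≤ (Em F (MC P c) r (.inr j)).card := by
      apply ht.monotone
      rw [Fin.le_def]
      exact Nat.zero_le _
    omega
  rintro (i | i) (j | j) hij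
  · rw [hw.injective hij]
  · exact absurd hij (hwt i j).ne
  · exact absurd hij (hwt j i).ne'
  · rw [ht.injective hij]

end Pool.Agent.Q257.RI
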