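import Pool.Agent.Q257.RI.D3

set_option autoImplicit false
set_option linter.unusedSectionVars false

namespace Pool.Agent.Q257.RI

open Finset
open Pool.Agent.Helper517.FIrr (IsEmb)

variable {n : ℕ} {P m : ℕ}

namespace Par2

variable {κ : ℕ} (h : Par2 n κ P m)
include h

variable (F : SimpleGraph (Fin n)) (r : Fin n) (hall : ∀ a, a ≠ r → F.Adj r a)
  (a0 b0 : Fin n) (ha0 : a0 ≠ r) (hb0 : b0 ≠ r) (hab : F.Adj a0 b0)
include hall ha0 hb0 hab

theorem highLower (i : Fin P) :
    (i.1 + 1).descFactorial (n - 1) ≤ (Em F (D3 P m) r (.inl i)).card := by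
  have := i.2
  have h1 := univ_lower F (D3 P m) r (.inl i) (tb P 0 (i.1 + 1)) (by
    intro z hz
    obtain ⟨x, rfl, x1, x2⟩ := mem_tb.1 hz
    rw [d_wt]
    left
    omega) (tb_clique _ _) (Em F (D3 P m) r (.inl i)) (by
    intro φ h1 h2 _
    exact mem_Em.2 ⟨h1, h2⟩)
  rwa [card_tb (by omega)] at h1

theorem highLe (i : Fin P) (hi : m ≤ i.1 + 1)
    (hmod : ∀ j, j + 1 < m → i.1 + j * m + 3 ≠ P) :
    (Em F (D3 P m) r (.inl i)).card ≤ (i.1 + 1).descFactorial (n - 1) := by
  have := i.2
  have h1 := univ_upper F (D3 P m) r hall (.inl i) (tb P 0 (i.1 + 1)) (by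
    rintro (z | z) hz
    · exfalso
      rw [d_ww] at hz
      obtain ⟨_, ⟨z1, z2⟩ | ⟨z1, z2⟩⟩ := hz
      · omega
      · exact hmod z.1 z1 z2
    · rw [d_wt] at hz
      rw [mem_tb]
      refine ⟨z, rfl, by omega, ?_⟩
      omega)
  rwa [card_tb (by omega)] at h1

theorem highLt (i : Fin P) (hi : m ≤ i.1 + 1) :
    (Em F (D3 P m) r (.inl i)).card < (i.1 + 2).descFactorial (n - 1) := by
  classical
  have hP := h.hP
  have hn := h.hn
  have hm := h.hm
  have hi2 := i.2
  have hmm : m ≤ m * m := Nat.le_mul_of_pos_left _ (by omega)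
  by_cases hc : ∃ j, j + 1 < m ∧ i.1 + j * m + 3 = P
  · obtain ⟨j, hj, hj2⟩ := hc
    have g5 := h.blk_le j hj
    have hjP : j < P := by omega
    refine lt_of_lt_of_le (univ_upper_lt F (D3 P m) r hall (.inl i)
      (insert (.inl ⟨j, hjP⟩) (tb P 0 (i.1 + 1))) ?_ a0 b0 ha0 hb0 hab (.inl ⟨j, hjP⟩)
      (.inr ⟨j + 1, by omega⟩) ?_ ?_ ?_ ?_ ?_) (desc_le _ _ _ ?_)
    · rintro (z | z) hz
      · rw [d_ww] at hz
        obtain ⟨_, ⟨z1, z2⟩ | ⟨z1, z2⟩⟩ := hz
        · omega
        · rw [mem_insert]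
          left
          congr 1
          apply Fin.ext
          simp only
          have e : z.1 * m = j * m := by omega
          exact Nat.eq_of_mul_eq_mul_right (by omega) e
      · rw [d_wt] at hz
        rw [mem_insert, mem_tb]
        right
        exact ⟨z, rfl, by omega, by omega⟩
    · exact mem_insert_self _ _
    · rw [mem_insert, mem_tb]
      right
      exact ⟨_, rfl, by omega, by simp only; omega⟩
    · exact fun hh => by cases hh
    · rw [d_wt]
      simp only
      omega
    · have : (tb P 0 (i.1 + 1)).card ≤ (insert (.inl ⟨j, hjP⟩) (tb P 0 (i.1 + 1))).card :=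
        Finset.card_le_card (Finset.subset_insert _ _)
      rw [card_tb (by omega)] at this
      omega
    · refine (Finset.card_insert_le _ _).trans ?_
      rw [card_tb (by omega)]
  · push Not at hc
    refine lt_of_le_of_lt (h.highLe F r hall a0 b0 ha0 hb0 hab i hi hc) ?_
    exact desc_lt _ _ (by omega) (by omega)

theorem lowLt (i : Fin P) (hi : i.1 + 1 < m) :
    (Em F (D3 P m) r (.inl i)).card < (i.1 + m + 2).descFactorial (n - 1) := by
  classical
  have hP := h.hP
  have hn := h.hn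
  have hm := h.hm
  have hi2 := i.2
  have hmm : m ≤ m * m := Nat.le_mul_of_pos_left _ (by omega)
  have g5 := h.blk_le i.1 hi
  have hh : P - i.1 * m - 3 < P := by omega
  refine lt_of_lt_of_le (univ_upper_lt F (D3 P m) r hall (.inl i)
    (insert (.inl ⟨P - i.1 * m - 3, hh⟩) (tb P 0 (i.1 + 1) ∪ tb P (P - i.1 * m - m) m)) ?_
    a0 b0 ha0 hb0 hab (.inl ⟨P - i.1 * m - 3, hh⟩)
    (.inr ⟨P - i.1 * m - 1, by omega⟩) ?_ ?_ ?_ ?_ ?_) (desc_le _ _ _ ?_)
  · rintro (z | z) hz
    · rw [d_ww] at hz
      rw [mem_insert]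
      left
      congr 1
      apply Fin.ext
      simp only
      obtain ⟨_, ⟨z1, z2⟩ | ⟨z1, z2⟩⟩ := hz
      · omega
      · have := h.blk_le z.1 z1
        omega
    · rw [d_wt] at hz
      have := z.2
      rw [mem_insert, mem_union, mem_tb, mem_tb]
      right
      rcases hz with hz | ⟨_, z2, z3⟩
      · left
        exact ⟨z, rfl, by omega, by omega⟩
      · right
        exact ⟨z, rfl, by omega, by omega⟩
  · exact mem_insert_self _ _
  · rw [mem_insert, mem_union, mem_tb, mem_tb]
    right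
    right
    exact ⟨_, rfl, by simp only; omega, by simp only; omega⟩
  · exact fun hh => by cases hh
  · rw [d_wt]
    simp only
    omega
  · have h3 : (tb P (P - i.1 * m - m) m).card ≤
        (insert (.inl ⟨P - i.1 * m - 3, hh⟩) (tb P 0 (i.1 + 1) ∪
          tb P (P - i.1 * m - m) m)).card :=
      Finset.card_le_card (Finset.subset_union_right.trans (Finset.subset_insert _ _))
    rw [card_tb (by omega)] at h3
    omega
  · refine (Finset.card_insert_le _ _).trans ?_
    have h3 := Finset.card_union_le (tb P 0 (i.1 + 1)) (tb P (P - i.1 * m - m) m)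
    rw [card_tb (by omega), card_tb (by omega)] at h3
    omega

theorem lowGt (i : Fin P) (hi : i.1 + 1 < m) :
    (i.1 + m + 1).descFactorial (n - 1) < (Em F (D3 P m) r (.inl i)).card := by
  classical
  have hP := h.hP
  have hn := h.hn
  have hm := h.hm
  have hi2 := i.2
  have hmm : m ≤ m * m := Nat.le_mul_of_pos_left _ (by omega)
  have g5 := h.blk_le i.1 hi
  have hh : P - i.1 * m - 3 < P := by omega
  have hdis : ∀ l, Disjoint (tb P 0 (i.1 + 1)) (tb P (P - i.1 * m - m) l) := by
    intro l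
    rw [Finset.disjoint_left]
    intro x hx hx'
    obtain ⟨y, rfl, y1, y2⟩ := mem_tb.1 hx
    obtain ⟨y', hy, y3, y4⟩ := mem_tb.1 hx'
    have := congrArg Fin.val (Sum.inr.inj hy)
    omega
  have hcardC : (tb P 0 (i.1 + 1) ∪ tb P (P - i.1 * m - m) m).card = i.1 + m + 1 := by
    rw [Finset.card_union_of_disjoint (hdis m), card_tb (by omega), card_tb (by omega)]
    omega
  rw [← hcardC]
  apply univ_lower_lt F (D3 P m) r (.inl i) (.inl ⟨P - i.1 * m - 3, hh⟩)
    (tb P 0 (i.1 + 1) ∪ tb P (P - i.1 * m - m) m)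
    (tb P 0 (i.1 + 1) ∪ tb P (P - i.1 * m - m) (m - 2)) _ _ _ _ _ _ _ a0 ha0
  · intro x hx
    rw [mem_union, mem_tb, mem_tb] at hx
    rcases hx with ⟨y, rfl, y1, y2⟩ | ⟨y, rfl, y1, y2⟩
    · rw [d_wt]
      left
      omega
    · rw [d_wt]
      right
      exact ⟨hi, by omega, by omega⟩
  · intro x hx y hy hxy
    have hin : ∀ z ∈ tb P 0 (i.1 + 1) ∪ tb P (P - i.1 * m - m) m, ∃ z' : Fin P, z = .inr z' := by
      intro z hz
      rw [mem_union, mem_tb, mem_tb] at hz
      rcases hz with ⟨y, rfl, _⟩ | ⟨y, rfl, _⟩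
      · exact ⟨y, rfl⟩
      · exact ⟨y, rfl⟩
    obtain ⟨x', rfl⟩ := hin x hx
    obtain ⟨y', rfl⟩ := hin y hy
    rw [d_tt]
    intro hh
    exact hxy (by rw [hh])
  · rw [d_ww]
    refine ⟨?_, Or.inl ⟨hi, by simp only; omega⟩⟩
    intro hh'
    have := congrArg Fin.val hh'
    simp only at this
    omega
  · intro hx
    rw [mem_union, mem_tb, mem_tb] at hx
    rcases hx with ⟨y, hy, _⟩ | ⟨y, hy, _⟩
    · cases hy
    · cases hy
  · apply Finset.union_subset_union_right
    intro x hx
    obtain ⟨y, rfl, y1, y2⟩ := mem_tb.1 hx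
    exact mem_tb.2 ⟨y, rfl, y1, by omega⟩
  · intro x hx
    rw [mem_union, mem_tb, mem_tb] at hx
    rcases hx with ⟨y, rfl, y1, y2⟩ | ⟨y, rfl, y1, y2⟩
    · rw [d_wt]
      left
      simp only
      omega
    · rw [d_wt]
      left
      simp only
      omega
  · rw [Finset.card_union_of_disjoint (hdis (m - 2)), card_tb (by omega), card_tb (by omega)]
    omega

theorem topT (hP0 : P - 1 < P) :
    P.descFactorial (n - 1) < (Em F (D3 P m) r (.inr ⟨P - 1, hP0⟩)).card := by
  classical
  have hP := h.hP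
  have hn := h.hn
  have hm := h.hm
  have hcard : (insert (.inl ⟨P - 1, hP0⟩) (tb P 0 (P - 1)) : Finset (VV P)).card = P := by
    rw [Finset.card_insert_of_notMem, card_tb (by omega)]
    · omega
    · intro hx
      obtain ⟨y, hy, _⟩ := mem_tb.1 hx
      cases hy
  have h1 := univ_lower_lt F (D3 P m) r (.inr ⟨P - 1, hP0⟩) (.inl ⟨0, by omega⟩)
    (insert (.inl ⟨P - 1, hP0⟩) (tb P 0 (P - 1))) (tb P (P - m) (m - 1)) (by
      intro x hx
      rw [mem_insert] at hx
      rcases hx with rfl | hx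
      · rw [d_tw]
        left
        exact le_rfl
      · obtain ⟨y, rfl, y1, y2⟩ := mem_tb.1 hx
        rw [d_tt, ne_eq, Fin.ext_iff]
        simp only
        omega) (by
      intro x hx y hy hxy
      rw [mem_insert] at hx hy
      rcases hx with rfl | hx
      · rcases hy with rfl | hy
        · exact absurd rfl hxy
        · obtain ⟨y, rfl, y1, y2⟩ := mem_tb.1 hy
          rw [d_wt]
          left
          simp only
          omega
      · rcases hy with rfl | hy
        · obtain ⟨y, rfl, y1, y2⟩ := mem_tb.1 hx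
          rw [d_tw]
          left
          simp only
          omega
        · exact tb_clique _ _ x hx y hy hxy) (by
      rw [d_tw]
      right
      simp only
      refine ⟨by omega, by omega, by omega⟩) (by
      intro hx
      rw [mem_insert] at hx
      rcases hx with hx | hx
      · have := congrArg Fin.val (Sum.inl.inj hx)
        simp only at this
        omega
      · obtain ⟨y, hy, _⟩ := mem_tb.1 hx
        cases hy) (by
      intro x hx
      obtain ⟨y, rfl, y1, y2⟩ := mem_tb.1 hx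
      rw [mem_insert]
      right
      exact mem_tb.2 ⟨y, rfl, by omega, by omega⟩) (by
      intro x hx
      obtain ⟨y, rfl, y1, y2⟩ := mem_tb.1 hx
      rw [d_wt]
      right
      simp only
      refine ⟨by omega, by omega, by omega⟩) (by
      rw [card_tb (by omega)]
      omega) a0 ha0
  rwa [hcard] at h1

theorem wle (i : Fin P) : (Em F (D3 P m) r (.inl i)).card ≤ P.descFactorial (n - 1) := by
  have hP := h.hP
  have hn := h.hn
  have hm := h.hm
  have hi2 := i.2
  by_cases hi : m ≤ i.1 + 1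
  · by_cases hi3 : i.1 + 2 ≤ P
    · exact (h.highLt F r hall a0 b0 ha0 hb0 hab i hi).le.trans (desc_le _ _ _ hi3)
    · refine (h.highLe F r hall a0 b0 ha0 hb0 hab i hi ?_).trans (desc_le _ _ _ (by omega))
      intro j _ hj
      omega
  · exact (h.lowLt F r hall a0 b0 ha0 hb0 hab i (by omega)).le.trans (desc_le _ _ _ (by omega))

theorem w_inj : Function.Injective (fun i : Fin P => (Em F (D3 P m) r (.inl i)).card) := by
  have hP := h.hP
  have hn := h.hn
  have hm := h.hm
  have key : ∀ i j : Fin P, i.1 < j.1 →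
      (Em F (D3 P m) r (.inl i)).card ≠ (Em F (D3 P m) r (.inl j)).card := by
    intro i j hij
    have hi2 := i.2
    have hj2 := j.2
    by_cases hi : m ≤ i.1 + 1
    · have h1 := h.highLt F r hall a0 b0 ha0 hb0 hab i hi
      have h2 := h.highLower F r hall a0 b0 ha0 hb0 hab j
      have h3 := desc_le (i.1 + 2) (j.1 + 1) (n - 1) (by omega)
      omega
    · have h1 := h.lowLt F r hall a0 b0 ha0 hb0 hab i (by omega)
      have h1' := h.lowGt F r hall a0 b0 ha0 hb0 hab i (by omega)
      by_cases hj : m ≤ j.1 + 1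
      · rcases Nat.lt_trichotomy j.1 (i.1 + m) with hlt | heq | hgt
        · have h2 := h.highLt F r hall a0 b0 ha0 hb0 hab j hj
          have h3 := desc_le (j.1 + 2) (i.1 + m + 1) (n - 1) (by omega)
          omega
        · have h2 := h.highLe F r hall a0 b0 ha0 hb0 hab j hj (by
            intro l hl hl2
            have := h.blk_le l hl
            omega)
          rw [heq] at h2
          omega
        · have h2 := h.highLower F r hall a0 b0 ha0 hb0 hab j
          have h3 := desc_le (i.1 + m + 2) (j.1 + 1) (n - 1) (by omega)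
          omega
      · have h2 := h.lowGt F r hall a0 b0 ha0 hb0 hab j (by omega)
        have h3 := desc_le (i.1 + m + 2) (j.1 + m + 1) (n - 1) (by omega)
        omega
  intro i j hij
  rcases Nat.lt_trichotomy i.1 j.1 with hlt | heq | hgt
  · exact absurd hij (key i j hlt)
  · exact Fin.ext heq
  · exact absurd hij.symm (key j i hgt)

end Par2

theorem exists_par2 (hn : 3 ≤ n) (N : ℕ) : ∃ κ P m : ℕ, Par2 n κ P m ∧ N ≤ P := by
  obtain ⟨m, hm⟩ : ∃ m, m = n - 1 := ⟨_, rfl⟩
  obtain ⟨C, hC⟩ : ∃ C, C = 2 * (2 * (m * m) + 4 * m + 10 + n) := ⟨_, rfl⟩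
  obtain ⟨κ, hκ⟩ : ∃ κ, κ = n ^ 2 * (2 * m + 2) * C ^ (n - 3) + 1 + N := ⟨_, rfl⟩
  obtain ⟨P, hP⟩ : ∃ P, P = 2 * (m * m) + 4 * m + 10 + n * κ := ⟨_, rfl⟩
  have hκ1 : 1 ≤ κ := by omega
  have h2P : 2 * P ≤ C * κ := by
    rw [hP, hC]
    have h1 : 2 * (m * m) + 4 * m + 10 ≤ (2 * (m * m) + 4 * m + 10) * κ :=
      Nat.le_mul_of_pos_right _ hκ1
    nlinarith
  refine ⟨κ, P, m, ⟨hn, by omega, hκ1, le_of_eq hP.symm, ?_⟩, ?_⟩
  · calc n ^ 2 * ((2 * m + 2) * (2 * P) ^ (n - 3))
        ≤ n ^ 2 * ((2 * m + 2) * (C * κ) ^ (n - 3)) :=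
          Nat.mul_le_mul_left _ (Nat.mul_le_mul_left _ (Nat.pow_le_pow_left h2P _))
      _ = (n ^ 2 * (2 * m + 2) * C ^ (n - 3)) * κ ^ (n - 3) := by rw [mul_pow]; ring
      _ < κ * κ ^ (n - 3) := by
          apply Nat.mul_lt_mul_of_pos_right _ (Nat.pow_pos hκ1)
          omega
      _ = κ ^ (n - 2) := by
          rw [← pow_succ']
          congr 1
          omega
  · have : κ ≤ n * κ := Nat.le_mul_of_pos_left _ (by omega)
    omega

/-- the case of a root which is adjacent to all other vertices -/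
theorem case2 (F : SimpleGraph (Fin n)) (r : Fin n) (hn : 3 ≤ n)
    (hall : ∀ a, a ≠ r → F.Adj r a) (a0 b0 : Fin n) (ha0 : a0 ≠ r) (hb0 : b0 ≠ r)
    (hab : F.Adj a0 b0) (N : ℕ) :
    ∃ (m : ℕ) (G' : SimpleGraph (Fin m)), N ≤ m ∧
        Function.Injective (fun v : Fin m => (Rt F G' r v).ncard) := by
  obtain ⟨κ, P, m, h, hN⟩ := exists_par2 hn N
  apply exists_fin F r (D3 P m) _ N (by rw [card_VV]; omega)
  have hP := h.hP
  have hPpos : P - 1 < P := by omega
  -- reversed chain of the clique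
  have ht : ∀ i j : Fin P, i.1 < j.1 →
      (Em F (D3 P m) r (.inr j)).card < (Em F (D3 P m) r (.inr i)).card := by
    have key : ∀ (d i : ℕ) (h0 : i < P) (h1 : i + d + 1 < P),
        (Em F (D3 P m) r (.inr ⟨i + d + 1, h1⟩)).card <
          (Em F (D3 P m) r (.inr ⟨i, h0⟩)).card := by
      intro d
      induction d with
      | zero => exact fun i h0 h1 => h.stepT F r hall a0 b0 ha0 hb0 hab i h0 h1
      | succ d ih =>
        intro i h0 h1
        exact (h.stepT F r hall a0 b0 ha0 hb0 hab (i + d + 1) (by omega) h1).trans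
          (ih i h0 (by omega))
    intro i j hij
    have := key (j.1 - i.1 - 1) i.1 i.2 (by have := j.2; omega)
    have e : (⟨i.1 + (j.1 - i.1 - 1) + 1, by have := j.2; omega⟩ : Fin P) = j := by
      apply Fin.ext
      simp only
      omega
    rw [e] at this
    exact this
  have hwt : ∀ i j : Fin P, (Em F (D3 P m) r (.inl i)).card < (Em F (D3 P m) r (.inr j)).card := by
    intro i j
    have h1 := h.wle F r hall a0 b0 ha0 hb0 hab i
    have h2 := h.topT F r hall a0 b0 ha0 hb0 hab hPpos
    by_cases hj : j.1 = P - 1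
    · have : j = ⟨P - 1, hPpos⟩ := Fin.ext hj
      rw [this]
      omega
    · have h3 := ht j ⟨P - 1, hPpos⟩ (by have := j.2; simp only; omega)
      omega
  rintro (i | i) (j | j) hij
  · rw [h.w_inj F r hall a0 b0 ha0 hb0 hab hij]
  · exact absurd hij (hwt i j).ne
  · exact absurd hij (hwt j i).ne'
  · rcases Nat.lt_trichotomy i.1 j.1 with hlt | heq | hgt
    · exact absurd hij (ht i j hlt).ne'
    · rw [Fin.ext heq]
    · exact absurd hij (ht j i hgt).ne

theorem main (n : ℕ) (F : SimpleGraph (Fin n)) (r : Fin n) (hn : 3 ≤ n) (hF : F.Connected)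
    (hstar : ¬ ((∀ a, a ≠ r → F.Adj r a) ∧ ∀ a b, a ≠ r → b ≠ r → ¬ F.Adj a b)) (N : ℕ) :
    ∃ (m : ℕ) (G : SimpleGraph (Fin m)), N ≤ m ∧
        Function.Injective (fun v : Fin m => (Rt F G r v).ncard) := by
  by_cases hc : ∃ s y, F.Adj r s ∧ F.Adj s y ∧ y ≠ r ∧ ¬ F.Adj r y
  · exact case1 F r hn hc N
  · push Not at hc
    have hall : ∀ a, a ≠ r → F.Adj r a := by
      intro a ha
      obtain ⟨w⟩ := hF.preconnected r a
      have key : ∀ (x y : Fin n) (w : F.Walk x y), (x = r ∨ F.Adj r x) → (y = r ∨ F.Adj r y) := by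
        intro x y w
        induction w with
        | nil => exact id
        | cons h _ ih =>
          intro hx
          apply ih
          rename_i b _ _
          by_cases hb : b = r
          · exact Or.inl hb
          · right
            rcases hx with rfl | hx
            · exact h
            · exact hc _ b hx h hb
      rcases key r a w (Or.inl rfl) with h1 | h1
      · exact absurd h1 ha
      · exact h1
    have : ∃ a b, a ≠ r ∧ b ≠ r ∧ F.Adj a b := by
      by_contra hcon
      push Not at hcon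
      exact hstar ⟨hall, hcon⟩
    obtain ⟨a0, b0, ha0, hb0, hab⟩ := this
    exact case2 F r hn hall a0 b0 ha0 hb0 hab N

end Pool.Agent.Q257.RI
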