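import Pool.Agent.Q257.RI.Univ
import Pool.Agent.Q257.RI.Case1

set_option autoImplicit false
set_option linter.unusedSectionVars false

/-!
The graph for a root which is adjacent to all other vertices: a clique `t 0, ..., t (P-1)` and
vertices `w 0, ..., w (P-1)`, where `w i` is adjacent to `t p` for `p ≤ i`; for `i + 1 < m` the
vertex `w i` is also adjacent to the `m` vertices `t p` of the `i`-th block from the end and to
one vertex `w j`.
-/

namespace Pool.Agent.Q257.RI

open Finset
open Pool.Agent.Helper517.FIrr (IsEmb)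

variable {n : ℕ}

def wk (P m p i : ℕ) : Prop := i + 1 < m ∧ P ≤ p + i * m + m ∧ p + i * m < P

def d3Adj (P m : ℕ) : VV P → VV P → Prop
  | .inl i, .inl j => i ≠ j ∧ ((i.1 + 1 < m ∧ j.1 + i.1 * m + 3 = P) ∨
      (j.1 + 1 < m ∧ i.1 + j.1 * m + 3 = P))
  | .inl i, .inr p => p.1 ≤ i.1 ∨ wk P m p i
  | .inr p, .inl i => p.1 ≤ i.1 ∨ wk P m p i
  | .inr p, .inr q => p ≠ q

def D3 (P m : ℕ) : SimpleGraph (VV P) where
  Adj := d3Adj P m
  symm := ⟨by
    rintro (i | _) (j | _) h
    · obtain ⟨h1, h2 | h2⟩ := h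
      · exact ⟨h1.symm, Or.inr h2⟩
      · exact ⟨h1.symm, Or.inl h2⟩
    · exact h
    · exact h
    · exact Ne.symm h⟩
  loopless := ⟨by
    rintro (_ | _) h
    · exact h.1 rfl
    · exact h rfl⟩

variable {P m : ℕ}

theorem d_ww (i j : Fin P) : (D3 P m).Adj (.inl i) (.inl j) ↔ (i ≠ j ∧
    ((i.1 + 1 < m ∧ j.1 + i.1 * m + 3 = P) ∨ (j.1 + 1 < m ∧ i.1 + j.1 * m + 3 = P))) := Iff.rfl
theorem d_wt (i p : Fin P) : (D3 P m).Adj (.inl i) (.inr p) ↔
  (p.1 ≤ i.1 ∨ (i.1 + 1 < m ∧ P ≤ p.1 + i.1 * m + m ∧ p.1 + i.1 * m < P)) := Iff.rfl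
theorem d_tw (i p : Fin P) : (D3 P m).Adj (.inr p) (.inl i) ↔
  (p.1 ≤ i.1 ∨ (i.1 + 1 < m ∧ P ≤ p.1 + i.1 * m + m ∧ p.1 + i.1 * m < P)) := Iff.rfl
theorem d_tt (p q : Fin P) : (D3 P m).Adj (.inr p) (.inr q) ↔ p ≠ q := Iff.rfl

theorem tb_clique (lo len : ℕ) : ∀ x ∈ tb P lo len, ∀ y ∈ tb P lo len, x ≠ y →
    (D3 P m).Adj x y := by
  intro x hx y hy hxy
  obtain ⟨a, rfl, _⟩ := mem_tb.1 hx
  obtain ⟨b, rfl, _⟩ := mem_tb.1 hy
  rw [d_tt]
  intro h
  exact hxy (by rw [h])

/-- lower bound by blocks -/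
theorem lbd (F : SimpleGraph (Fin n)) (lo len : ℕ) (v β : VV P) (r s : Fin n) (hrs : F.Adj r s)
    (hlo : lo + n * len ≤ P) (hvβ : (D3 P m).Adj v β)
    (hvT : ∀ x : Fin P, lo ≤ x.1 → x.1 < lo + n * len → (D3 P m).Adj v (.inr x))
    (hβT : ∀ x : Fin P, lo ≤ x.1 → x.1 < lo + n * len → (D3 P m).Adj β (.inr x))
    (A : Finset (Fin n → VV P)) (hA : ∀ φ, IsEmb F (D3 P m) φ → φ r = v → φ s = β →
      (∀ a, a ≠ r → a ≠ s → φ a ∈ tb P lo (n * len)) → φ ∈ A) :
    len ^ (n - 2) ≤ A.card := by
  have hblk : ∀ a : Fin n, lo + a.1 * len + len ≤ lo + n * len := by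
    intro a
    have : (a.1 + 1) * len ≤ n * len := Nat.mul_le_mul_right _ a.2
    nlinarith
  have hin : ∀ a : Fin n, ∀ z ∈ tb P (lo + a.1 * len) len, ∃ x : Fin P, z = .inr x ∧
      lo ≤ x.1 ∧ x.1 < lo + n * len := by
    intro a z hz
    obtain ⟨x, h1, h2, h3⟩ := mem_tb.1 hz
    have := hblk a
    exact ⟨x, h1, by omega, by omega⟩
  have hdb : ∀ a b : Fin n, a ≠ b → ∀ z ∈ tb P (lo + a.1 * len) len,
      z ∉ tb P (lo + b.1 * len) len := by
    intro a b hab z hz hz'
    obtain ⟨x, h1, h2, h3⟩ := mem_tb.1 hz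
    obtain ⟨x', h1', h2', h3'⟩ := mem_tb.1 hz'
    rw [h1] at h1'
    have hx : x = x' := Sum.inr.inj h1'
    subst hx
    rcases Nat.lt_trichotomy a.1 b.1 with h | h | h
    · have : (a.1 + 1) * len ≤ b.1 * len := Nat.mul_le_mul_right _ h
      nlinarith
    · exact hab (Fin.ext h)
    · have : (b.1 + 1) * len ≤ a.1 * len := Nat.mul_le_mul_right _ h
      nlinarith
  have irr : ∀ z, ¬ (D3 P m).Adj z z := fun z => (D3 P m).loopless.irrefl z
  obtain ⟨S, hS⟩ : ∃ S : Fin n → Finset (VV P), S = fun a => if a = r then {v} else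
    if a = s then {β} else tb P (lo + a.1 * len) len := ⟨_, rfl⟩
  have Sr : S r = {v} := by rw [hS]; simp
  have Ssq : S s = {β} := by rw [hS]; simp [hrs.ne.symm]
  have Sa : ∀ a, a ≠ r → a ≠ s → S a = tb P (lo + a.1 * len) len := by
    intro a h1 h2
    rw [hS]
    simp [h1, h2]
  have hprod : ∏ a, (S a).card = 1 * len ^ (n - 2) := by
    apply prod_two r s hrs.ne
    · rw [Sr, card_singleton]
    · rw [Ssq, card_singleton]
    · intro a h1 h2
      rw [Sa a h1 h2, card_tb]
      have := hblk a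
      omega
  rw [one_mul] at hprod
  rw [← hprod]
  have hall : ∀ a b, a ≠ b → ∀ x ∈ S a, ∀ y ∈ S b, (D3 P m).Adj x y := by
    have half : ∀ a b, a ≠ b → (a = r ∨ (a = s ∧ b ≠ r)) → ∀ x ∈ S a, ∀ y ∈ S b,
        (D3 P m).Adj x y := by
      rintro a b hab (rfl | ⟨rfl, hb⟩) x hx y hy
      · rw [Sr, mem_singleton] at hx
        subst hx
        by_cases hbs : b = s
        · subst hbs
          rw [Ssq, mem_singleton] at hy
          rw [hy]
          exact hvβ
        · rw [Sa b hab.symm hbs] at hy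
          obtain ⟨x', rfl, h2, h3⟩ := hin b y hy
          exact hvT x' h2 h3
      · rw [Ssq, mem_singleton] at hx
        rw [Sa b hb hab.symm] at hy
        obtain ⟨x', rfl, h2, h3⟩ := hin b y hy
        rw [hx]
        exact hβT x' h2 h3
    intro a b hab x hx y hy
    by_cases har : a = r
    · exact half a b hab (Or.inl har) x hx y hy
    by_cases hbr : b = r
    · exact (half b a hab.symm (Or.inl hbr) y hy x hx).symm
    by_cases has : a = s
    · exact half a b hab (Or.inr ⟨has, hbr⟩) x hx y hy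
    by_cases hbs : b = s
    · exact (half b a hab.symm (Or.inr ⟨hbs, har⟩) y hy x hx).symm
    rw [Sa a har has] at hx
    rw [Sa b hbr hbs] at hy
    have hxy : x ≠ y := by
      intro h
      rw [← h] at hy
      exact hdb a b hab x hx hy
    obtain ⟨x', rfl, _⟩ := hin a x hx
    obtain ⟨y', rfl, _⟩ := hin b y hy
    rw [d_tt]
    intro h
    exact hxy (by rw [h])
  apply lower F (D3 P m) S
  · intro a b hab
    rw [Finset.disjoint_left]
    intro x hx hx'
    exact irr x (hall a b hab x hx x hx')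
  · intro a b hab
    exact hall a b hab.ne
  · intro φ hφ hφS
    apply hA φ hφ
    · have := hφS r
      rwa [Sr, mem_singleton] at this
    · have := hφS s
      rwa [Ssq, mem_singleton] at this
    · intro a h1 h2
      have := hφS a
      rw [Sa a h1 h2] at this
      obtain ⟨x, hx, h3, h4⟩ := hin a _ this
      exact mem_tb.2 ⟨x, hx, h3, h4⟩

/-- the numerical assumptions -/
structure Par2 (n κ P m : ℕ) : Prop where
  hn : 3 ≤ n
  hm : m + 1 = n
  κ1 : 1 ≤ κ
  hP : 2 * (m * m) + 4 * m + 10 + n * κ ≤ P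
  I : n ^ 2 * ((2 * m + 2) * (2 * P) ^ (n - 3)) < κ ^ (n - 2)

namespace Par2

variable {κ : ℕ} (h : Par2 n κ P m)
include h

theorem blk_le (i : ℕ) (hi : i + 1 < m) : i * m + 2 * m ≤ m * m := by
  have h1 : (i + 2) * m ≤ m * m := Nat.mul_le_mul_right _ (by omega)
  nlinarith

variable (F : SimpleGraph (Fin n)) (r : Fin n) (hall : ∀ a, a ≠ r → F.Adj r a)
  (a0 b0 : Fin n) (ha0 : a0 ≠ r) (hb0 : b0 ≠ r) (hab : F.Adj a0 b0)
include hall ha0 hb0 hab

/-- the chain of the clique -/
theorem stepT (p : ℕ) (hp0 : p < P) (hp : p + 1 < P) :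
    (Em F (D3 P m) r (.inr ⟨p + 1, hp⟩)).card < (Em F (D3 P m) r (.inr ⟨p, hp0⟩)).card := by
  have hP := h.hP
  have hn := h.hn
  have hm := h.hm
  have hmm : m ≤ m * m := Nat.le_mul_of_pos_left _ (by omega)
  by_cases hc : ∃ i0, (i0 + 1 < m ∧ P ≤ p + 1 + i0 * m + m ∧ p + 1 + i0 * m < P) ∧
      ¬ (i0 + 1 < m ∧ P ≤ p + i0 * m + m ∧ p + i0 * m < P)
  · obtain ⟨i0, ⟨g1, g2, g3⟩, g4⟩ := hc
    have g5 := h.blk_le i0 g1
    have g6 : P = p + 1 + i0 * m + m := by
      by_contra hcon
      exact g4 ⟨g1, by omega, by omega⟩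
    have hi0 : i0 < P := by omega
    have h1 := lbd (m := m) F m κ (.inr ⟨p, hp0⟩) (.inl ⟨p, hp0⟩) r a0 (hall a0 ha0) (by omega)
      (by
        rw [d_tw]
        left
        exact le_rfl)
      (by
        intro x hx1 hx2
        rw [d_tt, ne_eq, Fin.ext_iff]
        simp only
        omega)
      (by
        intro x hx1 hx2
        rw [d_wt]
        left
        simp only
        omega)
      (fl (Em F (D3 P m) r (.inr ⟨p, hp0⟩)) (fun φ => ∃ s y, F.Adj r s ∧ φ s = .inl ⟨p, hp0⟩ ∧
        F.Adj s y ∧ y ≠ r ∧ ¬ (D3 P m).Adj (.inl ⟨i0, hi0⟩) (φ y)))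
      (by
        intro φ e1 e2 e3 e4
        rw [mem_fl, mem_Em]
        refine ⟨⟨e1, e2⟩, a0, b0, hall a0 ha0, e3, hab, hb0, ?_⟩
        obtain ⟨x, hx, hx1, hx2⟩ := mem_tb.1 (e4 b0 hb0 hab.ne.symm)
        rw [hx, d_wt]
        simp only
        omega)
    apply exchange_univ F (D3 P m) r hall _ _ (.inl ⟨i0, hi0⟩) (.inl ⟨p, hp0⟩) _ _ _ _ _ _ _ _ _ _
      (insert (.inl ⟨P - i0 * m - 3, by omega⟩) (tb P 0 (i0 + 1) ∪ tb P (P - i0 * m - m) m)) _ _
    · intro hh
      have := congrArg Fin.val (Sum.inr.inj hh)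
      simp only at this
      omega
    · intro hh
      have := congrArg Fin.val (Sum.inl.inj hh)
      simp only at this
      omega
    · exact fun hh => by cases hh
    · exact fun hh => by cases hh
    · exact fun hh => by cases hh
    · exact fun hh => by cases hh
    · rw [d_tw]
      simp only
      omega
    · rw [d_tw]
      simp only
      omega
    · rw [d_tw]
      simp only
      omega
    · rintro (z | z) hz hz' hu
      · rw [d_tw] at hu ⊢
        simp only at hu ⊢
        rcases hu with hu | ⟨u1, u2, u3⟩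
        · left
          omega
        · exfalso
          apply hz'
          congr 1
          apply Fin.ext
          simp only
          have e1 : z.1 * m < (i0 + 1) * m := by nlinarith
          have e2 : i0 * m < (z.1 + 1) * m := by nlinarith
          have e3 := Nat.lt_of_mul_lt_mul_right e1
          have e4 := Nat.lt_of_mul_lt_mul_right e2
          omega
      · rw [d_tt]
        intro hh
        exact hz (by rw [hh])
    · rintro (z | z) hz
      · rw [d_ww] at hz
        obtain ⟨_, ⟨_, z2⟩ | ⟨z1, z2⟩⟩ := hz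
        · rw [mem_insert]
          left
          congr 1
          apply Fin.ext
          simp only at z2 ⊢
          omega
        · exfalso
          have := h.blk_le z.1 z1
          simp only at z2
          omega
      · rw [d_wt] at hz
        rw [mem_insert, mem_union, mem_tb, mem_tb]
        right
        have := z.2
        rcases hz with hz | ⟨_, z2, z3⟩
        · left
          exact ⟨z, rfl, by omega, by simp only at hz; omega⟩
        · right
          exact ⟨z, rfl, by simp only at z2 z3; omega, by simp only at z2 z3; omega⟩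
    · refine lt_of_lt_of_le (lt_of_le_of_lt ?_ h.I) h1
      rw [card_VV]
      apply Nat.mul_le_mul_left
      apply Nat.mul_le_mul_right
      refine (Finset.card_insert_le _ _).trans ?_
      have h3 := Finset.card_union_le (tb P 0 (i0 + 1)) (tb P (P - i0 * m - m) m)
      have h4 : (tb P 0 (i0 + 1)).card ≤ i0 + 1 := card_tb_le
      have h5 : (tb P (P - i0 * m - m) m).card ≤ m := card_tb_le
      omega
  · push Not at hc
    apply nested_univ F (D3 P m) r hall
    · rintro (z | z) hz hu
      · rw [d_tw] at hu ⊢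
        simp only at hu ⊢
        rcases hu with hu | hu
        · left
          omega
        · right
          exact hc z.1 hu
      · rw [d_tt]
        intro hh
        exact hz (by rw [hh])
    · have hgoal : ∀ S : Finset (VV P), (∀ x ∈ S, (D3 P m).Adj (.inr ⟨p, hp0⟩) x) →
          (∀ x ∈ S, (D3 P m).Adj (.inl ⟨p, hp0⟩) x) →
          (∀ x ∈ S, ∀ y ∈ S, x ≠ y → (D3 P m).Adj x y) → n ≤ S.card + 2 →
          ∃ φ, IsEmb F (D3 P m) φ ∧ φ r = .inr ⟨p, hp0⟩ ∧
            ∃ s, s ≠ r ∧ ¬ (D3 P m).Adj (.inr ⟨p + 1, hp⟩) (φ s) ∧ φ s ≠ .inr ⟨p + 1, hp⟩ := by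
        intro S e1 e2 e3 e4
        obtain ⟨φ, f1, f2, f3⟩ := exists_two F (D3 P m) r (.inr ⟨p, hp0⟩) (.inl ⟨p, hp0⟩) a0 ha0
          (by
            rw [d_tw]
            left
            exact le_rfl) S e1 e2 e3 e4
        refine ⟨φ, f1, f2, a0, ha0, ?_, ?_⟩
        · rw [f3, d_tw]
          simp only
          rintro (g | ⟨g1, g2, g3⟩)
          · omega
          · have := h.blk_le p g1
            omega
        · rw [f3]
          exact fun hh => by cases hh
      by_cases hpm : p + 1 < m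
      · have g5 := h.blk_le p hpm
        apply hgoal (tb P (P - p * m - m) m)
        · intro x hx
          obtain ⟨x', rfl, x1, x2⟩ := mem_tb.1 hx
          rw [d_tt, ne_eq, Fin.ext_iff]
          simp only
          omega
        · intro x hx
          obtain ⟨x', rfl, x1, x2⟩ := mem_tb.1 hx
          rw [d_wt]
          right
          refine ⟨hpm, ?_, ?_⟩
          · simp only
            omega
          · simp only
            omega
        · exact tb_clique _ _
        · rw [card_tb (by omega)]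
          omega
      · apply hgoal (tb P 0 p)
        · intro x hx
          obtain ⟨x', rfl, x1, x2⟩ := mem_tb.1 hx
          rw [d_tt, ne_eq, Fin.ext_iff]
          simp only
          omega
        · intro x hx
          obtain ⟨x', rfl, x1, x2⟩ := mem_tb.1 hx
          rw [d_wt]
          left
          simp only
          omega
        · exact tb_clique _ _
        · rw [card_tb (by omega)]
          omega

end Par2

end Pool.Agent.Q257.RI
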