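import Pool.Agent.Q257.RI.Base

set_option autoImplicit false
set_option linter.unusedSectionVars false

namespace Pool.Agent.Q257.RI

open Finset
open Pool.Agent.Helper517.FIrr (IsEmb)

variable {n : ℕ} (F : SimpleGraph (Fin n)) {V : Type} [Fintype V]
  (G : SimpleGraph V) (r : Fin n)

/-- exchange comparison: passing from `u` to `v` the neighbour `α` is lost and the vertices of `D`
are gained, one of them is `β`. -/
theorem exchange (u v α β : V) (D : Finset V) (huv : u ≠ v) (hαβ : α ≠ β) (hαu : α ≠ u)
    (hαv : α ≠ v) (hβu : β ≠ u) (hβv : β ≠ v)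
    (hvα : ¬ G.Adj v α) (hvβ : G.Adj v β) (huβ : ¬ G.Adj u β)
    (hD : ∀ z, z ∈ D ↔ (G.Adj v z ∧ ¬ G.Adj u z ∧ z ≠ u))
    (hsub : ∀ z, z ≠ v → z ≠ α → G.Adj u z → G.Adj v z) :
    (Em F G r u).card + (fl (Em F G r v) (fun φ => ∃ s y, F.Adj r s ∧ φ s = β ∧ F.Adj s y ∧
        y ≠ r ∧ ¬ G.Adj α (φ y))).card ≤
      (Em F G r v).card +
        (fl (Em F G r u) (fun φ => (∃ x y, F.Adj x y ∧ φ x = v ∧ φ y ∈ D) ∨
          (∃ s, F.Adj r s ∧ φ s = α ∧ ((∃ x, φ x = β) ∨
            ∃ y, F.Adj s y ∧ y ≠ r ∧ G.Adj α (φ y) ∧ ¬ G.Adj β (φ y))))).card := by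
  classical
  obtain ⟨τ, hτ⟩ : ∃ τ : Equiv.Perm V, τ = Equiv.swap u v := ⟨_, rfl⟩
  have τu : τ u = v := by rw [hτ, Equiv.swap_apply_left]
  have τv : τ v = u := by rw [hτ, Equiv.swap_apply_right]
  have τz : ∀ z, z ≠ u → z ≠ v → τ z = z := fun z h1 h2 => by
    rw [hτ, Equiv.swap_apply_of_ne_of_ne h1 h2]
  obtain ⟨σ, hσ⟩ : ∃ σ : Equiv.Perm V, σ = (Equiv.swap u v).trans (Equiv.swap α β) := ⟨_, rfl⟩
  have σu : σ u = v := by
    rw [hσ, Equiv.trans_apply, Equiv.swap_apply_left, Equiv.swap_apply_of_ne_of_ne hαv.symm hβv.symm]
  have σv : σ v = u := by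
    rw [hσ, Equiv.trans_apply, Equiv.swap_apply_right,
      Equiv.swap_apply_of_ne_of_ne hαu.symm hβu.symm]
  have σα : σ α = β := by
    rw [hσ, Equiv.trans_apply, Equiv.swap_apply_of_ne_of_ne hαu hαv, Equiv.swap_apply_left]
  have σβ : σ β = α := by
    rw [hσ, Equiv.trans_apply, Equiv.swap_apply_of_ne_of_ne hβu hβv, Equiv.swap_apply_right]
  have σz : ∀ z, z ≠ u → z ≠ v → z ≠ α → z ≠ β → σ z = z := fun z h1 h2 h3 h4 => by
    rw [hσ, Equiv.trans_apply, Equiv.swap_apply_of_ne_of_ne h1 h2,
      Equiv.swap_apply_of_ne_of_ne h3 h4]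
  apply inj_cmp (fun φ => if ∃ s, F.Adj r s ∧ φ s = α then σ ∘ φ else τ ∘ φ)
  · exact fl_sub _ _
  · intro φ hφ hφ' ψ hψ hψ' hxy
    rw [mem_Em] at hφ hψ
    split_ifs at hxy with h1 h2 h2
    · funext a
      exact σ.injective (congrFun hxy a)
    · exfalso
      obtain ⟨s, hs, hsα⟩ := h1
      have h3 := congrFun hxy s
      rw [Function.comp_apply, Function.comp_apply, hsα, σα] at h3
      have h4 : ψ s = β := by
        apply τ.injective
        rw [← h3, τz β hβu hβv]
      have h5 := hψ.1.2 r s hs
      rw [hψ.2, h4] at h5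
      exact huβ h5
    · exfalso
      obtain ⟨s, hs, hsα⟩ := h2
      have h3 := congrFun hxy s
      rw [Function.comp_apply, Function.comp_apply, hsα, σα] at h3
      have h4 : φ s = β := by
        apply τ.injective
        rw [h3, τz β hβu hβv]
      have h5 := hφ.1.2 r s hs
      rw [hφ.2, h4] at h5
      exact huβ h5
    · funext a
      exact τ.injective (congrFun hxy a)
  · intro φ hφ hφ'
    rw [mem_Em] at hφ
    rw [mem_fl, mem_Em] at hφ'
    have hemb := hφ
    obtain ⟨⟨hinj, hadj⟩, hr⟩ := hφ
    have hI : ∀ x y, F.Adj x y → φ x = v → φ y ∉ D := by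
      intro x y hxy hx hy
      exact hφ' ⟨hemb, Or.inl ⟨x, y, hxy, hx, hy⟩⟩
    have huD : u ∉ D := fun h => by
      rw [hD] at h
      exact h.2.2 rfl
    have hru : ∀ y, φ y = u → y = r := fun y h => hinj (h.trans hr.symm)
    split_ifs with hc
    · obtain ⟨s0, hs0, hs0α⟩ := hc
      have hβim : ∀ x, φ x ≠ β := by
        intro x hx
        exact hφ' ⟨hemb, Or.inr ⟨s0, hs0, hs0α, Or.inl ⟨x, hx⟩⟩⟩
      have hαeq : ∀ a, φ a = α → a = s0 := fun a h => hinj (h.trans hs0α.symm)
      have help : ∀ a b, F.Adj a b → (φ a = u ∨ φ a = v ∨ φ a = α) →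
          G.Adj (σ (φ a)) (σ (φ b)) := by
        intro a b hab h3
        have hG := hadj a b hab
        rcases h3 with h3 | h3 | h3
        · rw [h3] at hG ⊢
          rw [σu]
          have hbu : φ b ≠ u := fun h => by
            rw [h] at hG
            exact G.loopless.irrefl u hG
          by_cases hbv : φ b = v
          · rw [hbv] at hG ⊢
            rw [σv]
            exact hG.symm
          · by_cases hbα : φ b = α
            · rw [hbα, σα]
              exact hvβ
            · rw [σz _ hbu hbv hbα (hβim b)]
              exact hsub _ hbv hbα hG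
        · rw [h3] at hG ⊢
          rw [σv]
          have hbv : φ b ≠ v := fun h => by
            rw [h] at hG
            exact G.loopless.irrefl v hG
          by_cases hbu : φ b = u
          · rw [hbu] at hG ⊢
            rw [σu]
            exact hG.symm
          · by_cases hbα : φ b = α
            · rw [hbα] at hG
              exact absurd hG hvα
            · rw [σz _ hbu hbv hbα (hβim b)]
              by_contra hcon
              exact hI a b hab h3 ((hD _).2 ⟨hG, hcon, hbu⟩)
        · rw [h3] at hG ⊢
          rw [σα]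
          have hbα : φ b ≠ α := fun h => by
            rw [h] at hG
            exact G.loopless.irrefl α hG
          have has : a = s0 := hαeq a h3
          by_cases hbu : φ b = u
          · rw [hbu, σu]
            exact hvβ.symm
          · by_cases hbv : φ b = v
            · rw [hbv] at hG
              exact absurd hG.symm hvα
            · rw [σz _ hbu hbv hbα (hβim b)]
              by_contra hcon
              refine hφ' ⟨hemb, Or.inr ⟨s0, hs0, hs0α, Or.inr ⟨b, has ▸ hab, ?_, hG, hcon⟩⟩⟩
              intro hbr
              rw [hbr] at hbu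
              exact hbu hr
      refine ⟨?_, ?_⟩
      · rw [mem_Em]
        refine ⟨⟨σ.injective.comp hinj, ?_⟩, ?_⟩
        · intro a b hab
          simp only [Function.comp]
          by_cases h3 : φ a = u ∨ φ a = v ∨ φ a = α
          · exact help a b hab h3
          · by_cases h4 : φ b = u ∨ φ b = v ∨ φ b = α
            · exact (help b a hab.symm h4).symm
            · push Not at h3 h4
              rw [σz _ h3.1 h3.2.1 h3.2.2 (hβim a), σz _ h4.1 h4.2.1 h4.2.2 (hβim b)]
              exact hadj a b hab
        · rw [Function.comp_apply, hr, σu]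
      · intro h
        rw [mem_fl] at h
        obtain ⟨_, s, y, hs, hsβ, hsy, hyr, hα⟩ := h
        rw [Function.comp_apply] at hsβ hα
        have h3 : φ s = α := by
          apply σ.injective
          rw [hsβ, σα]
        have h5 := hadj s y hsy
        rw [h3] at h5
        have hyu : φ y ≠ u := fun h => hyr (hru y h)
        have hyv : φ y ≠ v := fun h => by
          rw [h] at h5
          exact hvα h5.symm
        have hyα : φ y ≠ α := fun h => by
          rw [h] at h5
          exact G.loopless.irrefl α h5
        rw [σz _ hyu hyv hyα (hβim y)] at hα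
        exact hα h5
    · have key : ∀ y, F.Adj r y → G.Adj v (τ (φ y)) := by
        intro y hy
        have h1 := hadj r y hy
        rw [hr] at h1
        by_cases hyv : φ y = v
        · rw [hyv, τv]
          rw [hyv] at h1
          exact h1.symm
        · have hyu : φ y ≠ u := fun h => by
            rw [h] at h1
            exact G.loopless.irrefl u h1
          rw [τz _ hyu hyv]
          exact hsub _ hyv (fun h => hc ⟨y, hy, h⟩) h1
      have key2 : ∀ x y, F.Adj x y → φ x = v → φ y ≠ u → G.Adj u (τ (φ y)) := by
        intro x y hxy hx hyu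
        have h1 := hadj x y hxy
        rw [hx] at h1
        have hyv : φ y ≠ v := fun h => by
          rw [h] at h1
          exact G.loopless.irrefl v h1
        rw [τz _ hyu hyv]
        by_contra hc
        exact hI x y hxy hx ((hD _).2 ⟨h1, hc, hyu⟩)
      refine ⟨?_, ?_⟩
      · rw [mem_Em]
        refine ⟨⟨τ.injective.comp hinj, ?_⟩, ?_⟩
        · intro a b hab
          simp only [Function.comp]
          by_cases ha : φ a = u
          · rw [ha, τu]
            have := hru a ha
            subst this
            exact key b hab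
          · by_cases hb' : φ b = u
            · rw [hb', τu]
              have := hru b hb'
              subst this
              exact (key a hab.symm).symm
            · by_cases hav : φ a = v
              · rw [hav, τv]
                exact key2 a b hab hav hb'
              · by_cases hbv : φ b = v
                · rw [hbv, τv]
                  exact (key2 b a hab.symm hbv ha).symm
                · rw [τz _ ha hav, τz _ hb' hbv]
                  exact hadj a b hab
        · rw [Function.comp_apply, hr, τu]
      · intro h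
        rw [mem_fl] at h
        obtain ⟨_, s, y, hs, hsβ, _⟩ := h
        rw [Function.comp_apply] at hsβ
        have h3 : φ s = β := by
          apply τ.injective
          rw [hsβ, τz β hβu hβv]
        have h5 := hadj r s hs
        rw [hr, h3] at h5
        exact huβ h5

/-! ### counting -/

omit [Fintype V] in
/-- all functions with values in prescribed disjoint, completely joined sets are embeddings -/
theorem lower (S : Fin n → Finset V) (hdisj : ∀ a b, a ≠ b → Disjoint (S a) (S b))
    (hadj : ∀ a b, F.Adj a b → ∀ x ∈ S a, ∀ y ∈ S b, G.Adj x y) (A : Finset (Fin n → V))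
    (hA : ∀ φ, IsEmb F G φ → (∀ a, φ a ∈ S a) → φ ∈ A) : ∏ a, (S a).card ≤ A.card := by
  classical
  rw [← Fintype.card_piFinset]
  apply Finset.card_le_card
  intro φ hφ
  rw [Fintype.mem_piFinset] at hφ
  apply hA φ _ hφ
  refine ⟨fun a b hab => ?_, fun a b hab => hadj a b hab _ (hφ a) _ (hφ b)⟩
  by_contra hne
  have := Finset.disjoint_left.1 (hdisj a b hne) (hφ a)
  rw [hab] at this
  exact this (hφ b)

omit [Fintype V] in
/-- functions with values in prescribed sets -/
theorem upper (S : Fin n → Finset V) (A : Finset (Fin n → V))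
    (hA : ∀ φ ∈ A, ∀ a, φ a ∈ S a) : A.card ≤ ∏ a, (S a).card := by
  classical
  rw [← Fintype.card_piFinset]
  apply Finset.card_le_card
  intro φ hφ
  rw [Fintype.mem_piFinset]
  exact hA φ hφ

/-- functions with three prescribed positions -/
theorem upper3 (a b c : Fin n) (hab : a ≠ b) (hac : a ≠ c) (hbc : b ≠ c) (x y : V) (D : Finset V)
    (A : Finset (Fin n → V)) (hA : ∀ φ ∈ A, φ a = x ∧ φ b = y ∧ φ c ∈ D) :
    A.card ≤ D.card * (Fintype.card V) ^ (n - 3) := by
  classical
  refine (upper (fun i => if i = a then {x} else if i = b then {y} else if i = c then D else univ)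
    A ?_).trans ?_
  · intro φ hφ i
    obtain ⟨h1, h2, h3⟩ := hA φ hφ
    split_ifs with g1 g2 g3
    · rw [g1, h1]
      exact mem_singleton_self _
    · rw [g2, h2]
      exact mem_singleton_self _
    · rw [g3]
      exact h3
    · exact mem_univ _
  · have hc : c ∈ ((univ : Finset (Fin n)).erase a).erase b :=
      mem_erase.2 ⟨hbc.symm, mem_erase.2 ⟨hac.symm, mem_univ _⟩⟩
    have hb : b ∈ (univ : Finset (Fin n)).erase a := mem_erase.2 ⟨hab.symm, mem_univ _⟩
    rw [← Finset.mul_prod_erase univ _ (mem_univ a), ← Finset.mul_prod_erase _ _ hb,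
      ← Finset.mul_prod_erase _ _ hc]
    have h4 : ∏ i ∈ ((univ.erase a).erase b).erase c,
        (if i = a then ({x} : Finset V) else if i = b then {y} else if i = c then D else univ).card
        = (Fintype.card V) ^ (n - 3) := by
      rw [Finset.prod_congr rfl (g := fun _ => Fintype.card V)]
      · rw [Finset.prod_const, Finset.card_erase_of_mem hc, Finset.card_erase_of_mem hb,
          Finset.card_erase_of_mem (mem_univ a), Finset.card_univ, Fintype.card_fin]
        congr 1
      · intro i hi
        rw [mem_erase, mem_erase, mem_erase] at hi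
        rw [if_neg hi.2.2.1, if_neg hi.2.1, if_neg hi.1, Finset.card_univ]
    rw [h4, if_pos rfl, if_neg hab.symm, if_pos rfl, if_neg hac.symm, if_neg hbc.symm, if_pos rfl,
      card_singleton, card_singleton]
    simp

end Pool.Agent.Q257.RI
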