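import Pool.Agent.Q257.RI.Bound

set_option autoImplicit false
set_option linter.unusedSectionVars false

/-!
The graph for a root which is not adjacent to all other vertices: a clique `t 0, ..., t (P-1)`, an
independent set `w 0, ..., w (P-1)`, and `w i` is adjacent to `t p` if `P ≤ i + p + 1` or
`i + p + 2 ≤ c`.
-/

namespace Pool.Agent.Q257.RI

open Finset
open Pool.Agent.Helper517.FIrr (IsEmb)

abbrev VV (P : ℕ) := Fin P ⊕ Fin P

def R (P c i p : ℕ) : Prop := P ≤ i + p + 1 ∨ i + p + 2 ≤ c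

def mcAdj (P c : ℕ) : VV P → VV P → Prop
  | .inl _, .inl _ => False
  | .inl i, .inr p => R P c i p
  | .inr p, .inl i => R P c i p
  | .inr p, .inr q => p ≠ q

def MC (P c : ℕ) : SimpleGraph (VV P) where
  Adj := mcAdj P c
  symm := ⟨by
    rintro (_ | _) (_ | _) h <;> first | exact h | exact Ne.symm h⟩
  loopless := ⟨by
    rintro (_ | _) h <;> first | exact h | exact h rfl⟩

variable {n : ℕ}

section blocks

variable {P : ℕ}

def tb (P lo len : ℕ) : Finset (VV P) :=
  (univ.filter (fun x : Fin P => lo ≤ x.1 ∧ x.1 < lo + len)).map ⟨Sum.inr, Sum.inr_injective⟩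

def wb (P lo len : ℕ) : Finset (VV P) :=
  (univ.filter (fun x : Fin P => lo ≤ x.1 ∧ x.1 < lo + len)).map ⟨Sum.inl, Sum.inl_injective⟩

theorem mem_tb {lo len : ℕ} {z : VV P} :
    z ∈ tb P lo len ↔ ∃ x : Fin P, z = .inr x ∧ lo ≤ x.1 ∧ x.1 < lo + len := by
  simp only [tb, mem_map, mem_filter, mem_univ, true_and, Function.Embedding.coeFn_mk]
  constructor
  · rintro ⟨x, h, rfl⟩
    exact ⟨x, rfl, h⟩
  · rintro ⟨x, rfl, h⟩
    exact ⟨x, h, rfl⟩

theorem mem_wb {lo len : ℕ} {z : VV P} :
    z ∈ wb P lo len ↔ ∃ x : Fin P, z = .inl x ∧ lo ≤ x.1 ∧ x.1 < lo + len := by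
  simp only [wb, mem_map, mem_filter, mem_univ, true_and, Function.Embedding.coeFn_mk]
  constructor
  · rintro ⟨x, h, rfl⟩
    exact ⟨x, rfl, h⟩
  · rintro ⟨x, rfl, h⟩
    exact ⟨x, h, rfl⟩

theorem card_range {lo len : ℕ} (h : lo + len ≤ P) :
    (univ.filter (fun x : Fin P => lo ≤ x.1 ∧ x.1 < lo + len)).card = len := by
  rw [← Finset.card_map Fin.valEmbedding]
  have : (univ.filter (fun x : Fin P => lo ≤ x.1 ∧ x.1 < lo + len)).map Fin.valEmbedding =
      Finset.Ico lo (lo + len) := by
    ext z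
    simp only [mem_map, mem_filter, mem_univ, true_and, Fin.valEmbedding_apply, mem_Ico]
    constructor
    · rintro ⟨x, h, rfl⟩
      exact h
    · intro hz
      exact ⟨⟨z, by omega⟩, hz, rfl⟩
  rw [this, Nat.card_Ico]
  omega

theorem card_tb {lo len : ℕ} (h : lo + len ≤ P) : (tb P lo len).card = len := by
  rw [tb, card_map, card_range h]

theorem card_wb {lo len : ℕ} (h : lo + len ≤ P) : (wb P lo len).card = len := by
  rw [wb, card_map, card_range h]

theorem card_range_le {lo len : ℕ} :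
    (univ.filter (fun x : Fin P => lo ≤ x.1 ∧ x.1 < lo + len)).card ≤ len := by
  rw [← Finset.card_map Fin.valEmbedding]
  have : (univ.filter (fun x : Fin P => lo ≤ x.1 ∧ x.1 < lo + len)).map Fin.valEmbedding ⊆
      Finset.Ico lo (lo + len) := by
    intro z
    simp only [mem_map, mem_filter, mem_univ, true_and, Fin.valEmbedding_apply, mem_Ico]
    rintro ⟨x, h, rfl⟩
    exact h
  refine (Finset.card_le_card this).trans ?_
  rw [Nat.card_Ico]
  omega

theorem card_tb_le {lo len : ℕ} : (tb P lo len).card ≤ len := by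
  rw [tb, card_map]
  exact card_range_le

theorem card_wb_le {lo len : ℕ} : (wb P lo len).card ≤ len := by
  rw [wb, card_map]
  exact card_range_le

end blocks

section prods

theorem prod_lower (T : Finset (Fin n)) (κ : ℕ) (f : Fin n → ℕ) (h1 : ∀ a, 1 ≤ f a)
    (h2 : ∀ a, a ∉ T → κ ≤ f a) : κ ^ (n - T.card) ≤ ∏ a, f a := by
  have h3 : ∏ a, (if a ∈ T then 1 else κ) ≤ ∏ a, f a := by
    apply Finset.prod_le_prod'
    intro a _
    split_ifs with h
    · exact h1 a
    · exact h2 a h
  refine le_trans (le_of_eq ?_) h3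
  rw [Finset.prod_ite, Finset.prod_const_one, one_mul, Finset.prod_const]
  congr 1
  have : (univ.filter (fun a => a ∉ T)) = Tᶜ := by
    ext a
    simp
  rw [this, Finset.card_compl, Fintype.card_fin]

theorem prod_two (r s : Fin n) (hrs : r ≠ s) (f : Fin n → ℕ) (K L : ℕ) (hr : f r = 1)
    (hs : f s = K) (h : ∀ a, a ≠ r → a ≠ s → f a = L) : ∏ a, f a = K * L ^ (n - 2) := by
  have h1 : s ∈ (univ : Finset (Fin n)).erase r := mem_erase.2 ⟨hrs.symm, mem_univ _⟩
  rw [← Finset.mul_prod_erase univ _ (mem_univ r), ← Finset.mul_prod_erase _ _ h1, hr, hs, one_mul]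
  congr 1
  rw [Finset.prod_congr rfl (g := fun _ => L)]
  · rw [Finset.prod_const, Finset.card_erase_of_mem h1, Finset.card_erase_of_mem (mem_univ r),
      Finset.card_univ, Fintype.card_fin]
    congr 1
  · intro a ha
    rw [mem_erase, mem_erase] at ha
    exact h a ha.2.1 ha.1

theorem prod_one (y : Fin n) (f g : Fin n → ℕ) (K : ℕ) (hy : f y = K) (gy : g y = 1)
    (h : ∀ a, a ≠ y → f a = g a) : ∏ a, f a = K * ∏ a, g a := by
  have h1 := Finset.mul_prod_erase univ f (mem_univ y)
  have h2 := Finset.mul_prod_erase univ g (mem_univ y)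
  rw [← h1, ← h2, hy, gy, one_mul]
  congr 1
  apply Finset.prod_congr rfl
  intro a ha
  rw [mem_erase] at ha
  exact h a ha.1

theorem prod_scale (C : ℕ) (f g : Fin n → ℕ) (h : ∀ a, f a ≤ C * g a) :
    ∏ a, f a ≤ C ^ n * ∏ a, g a := by
  calc ∏ a, f a ≤ ∏ a, (C * g a) := Finset.prod_le_prod' (fun a _ => h a)
    _ = C ^ n * ∏ a, g a := by
      rw [Finset.prod_mul_distrib, Finset.prod_const, Finset.card_univ, Fintype.card_fin]

end prods

section lb

variable (F : SimpleGraph (Fin n)) (P c : ℕ)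

/-- lower bound, two special positions and the others in blocks of a clique -/
theorem lb2 (lo len : ℕ) (v : VV P) (Ss : Finset (VV P)) (r s : Fin n) (hrs : F.Adj r s)
    (hlo : lo + n * len ≤ P) (hvS : ∀ z ∈ Ss, (MC P c).Adj v z)
    (hvT : ∀ x : Fin P, lo ≤ x.1 → x.1 < lo + n * len → (MC P c).Adj v (.inr x))
    (hST : ∀ z ∈ Ss, ∀ x : Fin P, lo ≤ x.1 → x.1 < lo + n * len → (MC P c).Adj z (.inr x))
    (A : Finset (Fin n → VV P)) (hA : ∀ φ, IsEmb F (MC P c) φ → φ r = v → φ s ∈ Ss →
      (∀ a, a ≠ r → a ≠ s → φ a ∈ tb P (lo + a.1 * len) len) → φ ∈ A) :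
    Ss.card * len ^ (n - 2) ≤ A.card := by
  have hblk : ∀ a : Fin n, lo + a.1 * len + len ≤ lo + n * len := by
    intro a
    have : (a.1 + 1) * len ≤ n * len := Nat.mul_le_mul_right _ a.2
    nlinarith
  have hin : ∀ a : Fin n, ∀ z ∈ tb P (lo + a.1 * len) len, ∃ x : Fin P, z = .inr x ∧
      lo ≤ x.1 ∧ x.1 < lo + n * len := by
    intro a z hz
    obtain ⟨x, h1, h2, h3⟩ := mem_tb.1 hz
    have := hblk a
    exact ⟨x, h1, by omega, by omega⟩
  have hdb : ∀ a b : Fin n, a ≠ b → ∀ z ∈ tb P (lo + a.1 * len) len,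
      z ∉ tb P (lo + b.1 * len) len := by
    intro a b hab z hz hz'
    obtain ⟨x, h1, h2, h3⟩ := mem_tb.1 hz
    obtain ⟨x', h1', h2', h3'⟩ := mem_tb.1 hz'
    rw [h1] at h1'
    have hx : x = x' := Sum.inr.inj h1'
    subst hx
    rcases Nat.lt_trichotomy a.1 b.1 with h | h | h
    · have : (a.1 + 1) * len ≤ b.1 * len := Nat.mul_le_mul_right _ h
      nlinarith
    · exact hab (Fin.ext h)
    · have : (b.1 + 1) * len ≤ a.1 * len := Nat.mul_le_mul_right _ h
      nlinarith
  have irr : ∀ z, ¬ (MC P c).Adj z z := fun z => (MC P c).loopless.irrefl z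
  obtain ⟨S, hS⟩ : ∃ S : Fin n → Finset (VV P), S = fun a => if a = r then {v} else
    if a = s then Ss else tb P (lo + a.1 * len) len := ⟨_, rfl⟩
  have Sr : S r = {v} := by rw [hS]; simp
  have Ssq : S s = Ss := by rw [hS]; simp [hrs.ne.symm]
  have Sa : ∀ a, a ≠ r → a ≠ s → S a = tb P (lo + a.1 * len) len := by
    intro a h1 h2
    rw [hS]
    simp [h1, h2]
  have hprod : ∏ a, (S a).card = Ss.card * len ^ (n - 2) := by
    apply prod_two r s hrs.ne
    · rw [Sr, card_singleton]
    · rw [Ssq]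
    · intro a h1 h2
      rw [Sa a h1 h2, card_tb]
      have := hblk a
      omega
  rw [← hprod]
  -- adjacency between different positions
  have hall : ∀ a b, a ≠ b → ∀ x ∈ S a, ∀ y ∈ S b, (MC P c).Adj x y := by
    have half : ∀ a b, a ≠ b → (a = r ∨ (a = s ∧ b ≠ r)) → ∀ x ∈ S a, ∀ y ∈ S b,
        (MC P c).Adj x y := by
      rintro a b hab (rfl | ⟨rfl, hb⟩) x hx y hy
      · rw [Sr, mem_singleton] at hx
        subst hx
        by_cases hbs : b = s
        · subst hbs
          rw [Ssq] at hy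
          exact hvS y hy
        · rw [Sa b hab.symm hbs] at hy
          obtain ⟨x', rfl, h2, h3⟩ := hin b y hy
          exact hvT x' h2 h3
      · rw [Ssq] at hx
        rw [Sa b hb hab.symm] at hy
        obtain ⟨x', rfl, h2, h3⟩ := hin b y hy
        exact hST x hx x' h2 h3
    intro a b hab x hx y hy
    by_cases har : a = r
    · exact half a b hab (Or.inl har) x hx y hy
    by_cases hbr : b = r
    · exact (half b a hab.symm (Or.inl hbr) y hy x hx).symm
    by_cases has : a = s
    · exact half a b hab (Or.inr ⟨has, hbr⟩) x hx y hy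
    by_cases hbs : b = s
    · exact (half b a hab.symm (Or.inr ⟨hbs, har⟩) y hy x hx).symm
    rw [Sa a har has] at hx
    rw [Sa b hbr hbs] at hy
    have hxy : x ≠ y := by
      intro h
      rw [← h] at hy
      exact hdb a b hab x hx hy
    obtain ⟨x', rfl, _⟩ := hin a x hx
    obtain ⟨y', rfl, _⟩ := hin b y hy
    intro h
    exact hxy (by rw [h])
  apply lower F (MC P c) S
  · intro a b hab
    rw [Finset.disjoint_left]
    intro x hx hx'
    exact irr x (hall a b hab x hx x hx')
  · intro a b hab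
    exact hall a b hab.ne
  · intro φ hφ hφS
    apply hA φ hφ
    · have := hφS r
      rw [Sr, mem_singleton] at this
      exact this
    · have := hφS s
      rwa [Ssq] at this
    · intro a h1 h2
      have := hφS a
      rwa [Sa a h1 h2] at this

/-- lower bound, three special positions and the others in prescribed sets of the clique -/
theorem lb3 (blk : Fin n → Finset (VV P)) (v β : VV P) (Sy : Finset (VV P)) (r s y : Fin n)
    (hrs : F.Adj r s) (hsy : F.Adj s y) (hyr : y ≠ r) (hry : ¬ F.Adj r y)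
    (hβ : ∃ x, β = .inr x) (hv : ∃ x, v = .inl x) (hSy : ∀ z ∈ Sy, ∃ x, z = .inl x)
    (hvSy : v ∉ Sy)
    (hT : ∀ a, ∀ z ∈ blk a, ∃ x, z = .inr x) (hdis : ∀ a b, a ≠ b → ∀ z ∈ blk a, z ∉ blk b)
    (hβb : ∀ a, β ∉ blk a)
    (hvβ : (MC P c).Adj v β) (hβy : ∀ z ∈ Sy, (MC P c).Adj β z)
    (hvT : ∀ a, F.Adj r a → ∀ z ∈ blk a, (MC P c).Adj v z)
    (hyT : ∀ a, F.Adj y a → ∀ w ∈ Sy, ∀ z ∈ blk a, (MC P c).Adj w z)
    (A : Finset (Fin n → VV P)) (hA : ∀ φ, IsEmb F (MC P c) φ → φ r = v → φ s = β → φ y ∈ Sy →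
      φ ∈ A) (g : Fin n → ℕ) (gr : g r = 1) (gs : g s = 1) (gy : g y = 1)
    (hg : ∀ a, a ≠ r → a ≠ s → a ≠ y → (blk a).card = g a) :
    Sy.card * ∏ a, g a ≤ A.card := by
  obtain ⟨S, hS⟩ : ∃ S : Fin n → Finset (VV P), S = fun a => if a = r then {v} else
    if a = s then {β} else if a = y then Sy else blk a := ⟨_, rfl⟩
  have hsr : s ≠ r := hrs.ne.symm
  have hys : y ≠ s := hsy.ne.symm
  have Sr : S r = {v} := by rw [hS]; simp
  have Ssq : S s = {β} := by rw [hS]; simp [hsr]
  have Syq : S y = Sy := by rw [hS]; simp [hyr, hys]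
  have Sa : ∀ a, a ≠ r → a ≠ s → a ≠ y → S a = blk a := by
    intro a h1 h2 h3
    rw [hS]
    simp [h1, h2, h3]
  have hprod : ∏ a, (S a).card = Sy.card * ∏ a, g a := by
    apply prod_one y _ g Sy.card
    · rw [Syq]
    · exact gy
    · intro a ha
      by_cases har : a = r
      · rw [har, Sr, card_singleton, gr]
      · by_cases has : a = s
        · rw [has, Ssq, card_singleton, gs]
        · rw [Sa a har has ha, hg a har has ha]
  rw [← hprod]
  obtain ⟨β0, hβ0⟩ := hβ
  obtain ⟨v0, hv0⟩ := hv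
  have vβ : v ≠ β := by rw [hβ0, hv0]; exact fun h => by cases h
  apply lower F (MC P c) S
  · intro a b hab
    rw [Finset.disjoint_left]
    have half : ∀ a b, a ≠ b → (a = r ∨ (a = s ∧ b ≠ r) ∨ (a = y ∧ b ≠ r ∧ b ≠ s)) →
        ∀ x ∈ S a, x ∉ S b := by
      rintro a b hab (rfl | ⟨rfl, hb⟩ | ⟨rfl, hb, hb'⟩) x hx hx'
      · rw [Sr, mem_singleton] at hx
        subst hx
        by_cases hbs : b = s
        · rw [hbs, Ssq, mem_singleton] at hx'
          exact vβ hx'
        · by_cases hby : b = y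
          · rw [hby, Syq] at hx'
            exact hvSy hx'
          · rw [Sa b hab.symm hbs hby] at hx'
            obtain ⟨x', h⟩ := hT b x hx'
            rw [hv0] at h
            cases h
      · rw [Ssq, mem_singleton] at hx
        subst hx
        by_cases hby : b = y
        · rw [hby, Syq] at hx'
          obtain ⟨x', h⟩ := hSy x hx'
          rw [hβ0] at h
          cases h
        · rw [Sa b hb hab.symm hby] at hx'
          exact hβb b hx'
      · rw [Syq] at hx
        rw [Sa b hb hb' hab.symm] at hx'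
        obtain ⟨x1, h1⟩ := hSy x hx
        obtain ⟨x2, h2⟩ := hT b x hx'
        rw [h1] at h2
        cases h2
    intro x hx hx'
    by_cases har : a = r
    · exact half a b hab (Or.inl har) x hx hx'
    by_cases hbr : b = r
    · exact half b a hab.symm (Or.inl hbr) x hx' hx
    by_cases has : a = s
    · exact half a b hab (Or.inr (Or.inl ⟨has, hbr⟩)) x hx hx'
    by_cases hbs : b = s
    · exact half b a hab.symm (Or.inr (Or.inl ⟨hbs, har⟩)) x hx' hx
    by_cases hay : a = y
    · exact half a b hab (Or.inr (Or.inr ⟨hay, hbr, hbs⟩)) x hx hx'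
    by_cases hby : b = y
    · exact half b a hab.symm (Or.inr (Or.inr ⟨hby, har, has⟩)) x hx' hx
    rw [Sa a har has hay] at hx
    rw [Sa b hbr hbs hby] at hx'
    exact hdis a b hab x hx hx'
  · intro a b hab
    have half : ∀ a b, F.Adj a b → (a = r ∨ (a = s ∧ b ≠ r) ∨ (a = y ∧ b ≠ r ∧ b ≠ s)) →
        ∀ x ∈ S a, ∀ z ∈ S b, (MC P c).Adj x z := by
      rintro a b hab (rfl | ⟨rfl, hb⟩ | ⟨rfl, hb, hb'⟩) x hx z hz
      · rw [Sr, mem_singleton] at hx
        subst hx
        by_cases hbs : b = s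
        · rw [hbs, Ssq, mem_singleton] at hz
          rw [hz]
          exact hvβ
        · by_cases hby : b = y
          · rw [hby] at hab
            exact absurd hab hry
          · rw [Sa b hab.ne.symm hbs hby] at hz
            exact hvT b hab z hz
      · rw [Ssq, mem_singleton] at hx
        subst hx
        by_cases hby : b = y
        · rw [hby, Syq] at hz
          exact hβy z hz
        · rw [Sa b hb hab.ne.symm hby] at hz
          have hne : x ≠ z := fun h => hβb b (h ▸ hz)
          obtain ⟨x', rfl⟩ := hT b z hz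
          rw [hβ0] at hne ⊢
          intro h
          exact hne (by rw [h])
      · rw [Syq] at hx
        rw [Sa b hb hb' hab.ne.symm] at hz
        exact hyT b hab x hx z hz
    intro x hx z hz
    by_cases har : a = r
    · exact half a b hab (Or.inl har) x hx z hz
    by_cases hbr : b = r
    · exact (half b a hab.symm (Or.inl hbr) z hz x hx).symm
    by_cases has : a = s
    · exact half a b hab (Or.inr (Or.inl ⟨has, hbr⟩)) x hx z hz
    by_cases hbs : b = s
    · exact (half b a hab.symm (Or.inr (Or.inl ⟨hbs, har⟩)) z hz x hx).symm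
    by_cases hay : a = y
    · exact half a b hab (Or.inr (Or.inr ⟨hay, hbr, hbs⟩)) x hx z hz
    by_cases hby : b = y
    · exact (half b a hab.symm (Or.inr (Or.inr ⟨hby, har, has⟩)) z hz x hx).symm
    rw [Sa a har has hay] at hx
    rw [Sa b hbr hbs hby] at hz
    have hne : x ≠ z := fun h => hdis a b hab.ne x hx (h ▸ hz)
    obtain ⟨x', rfl⟩ := hT a x hx
    obtain ⟨z', rfl⟩ := hT b z hz
    intro h
    exact hne (by rw [h])
  · intro φ hφ hφS
    apply hA φ hφ
    · have := hφS r
      rwa [Sr, mem_singleton] at this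
    · have := hφS s
      rwa [Ssq, mem_singleton] at this
    · have := hφS y
      rwa [Syq] at this

end lb

end Pool.Agent.Q257.RI
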