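import Pool.Agent.Q257.RI.MC

set_option autoImplicit false
set_option linter.unusedSectionVars false

namespace Pool.Agent.Q257.RI

open Finset
open Pool.Agent.Helper517.FIrr (IsEmb)

variable {n : ℕ}

/-- the numerical assumptions -/
structure Par (n κ k b c M P C3 : ℕ) : Prop where
  hn : 3 ≤ n
  κ1 : 1 ≤ κ
  hk : k = n * κ
  hc : c = 2 * (n * b)
  hP : P = 4 * (n * M)
  hcM : c ≤ M
  κM : κ ≤ M
  κb : κ ≤ b
  I1 : 2 * n ^ 2 * (k * (8 * n) ^ n) + 2 * k + 2 ≤ n * b
  I2 : 2 * n ^ 2 * (c * C3 ^ n) ≤ M
  hC3 : c ≤ C3 * κ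
  hC3' : 8 * n ≤ C3
  I3 : 2 * n ^ 2 * (2 * (2 * P) ^ (n - 3)) < κ ^ (n - 2)
  I4 : n ^ 2 * (c * (2 * P) ^ (n - 3)) < κ ^ (n - 1)
  I5 : 2 * n ^ 2 * (c * (2 * P) ^ (n - 3)) ≤ M ^ (n - 2)

variable {κ k b c M P C3 : ℕ}

theorem mc_ww (i j : Fin P) : (MC P c).Adj (.inl i) (.inl j) ↔ False := Iff.rfl
theorem mc_wt (i p : Fin P) : (MC P c).Adj (.inl i) (.inr p) ↔
  (P ≤ i.1 + p.1 + 1 ∨ i.1 + p.1 + 2 ≤ c) := Iff.rfl
theorem mc_tw (i p : Fin P) : (MC P c).Adj (.inr p) (.inl i) ↔
  (P ≤ i.1 + p.1 + 1 ∨ i.1 + p.1 + 2 ≤ c) := Iff.rfl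
theorem mc_tt (p q : Fin P) : (MC P c).Adj (.inr p) (.inr q) ↔ p ≠ q := Iff.rfl

theorem card_VV (P : ℕ) : Fintype.card (VV P) = 2 * P := by
  rw [Fintype.card_sum, Fintype.card_fin]
  ring

namespace Par

variable (h : Par n κ k b c M P C3)
include h

theorem basic : 2 * k + 2 ≤ n * b ∧ c = 2 * (n * b) ∧ k = n * κ ∧ P = 4 * (n * M) ∧ c ≤ M ∧
    3 * M ≤ n * M ∧ 1 ≤ κ ∧ 3 * κ ≤ k := by
  have h1 := h.I1
  have h2 : 3 * M ≤ n * M := Nat.mul_le_mul_right _ h.hn
  have h3 : 3 * κ ≤ n * κ := Nat.mul_le_mul_right _ h.hn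
  have h4 := h.hk
  exact ⟨by omega, h.hc, h.hk, h.hP, h.hcM, h2, h.κ1, by omega⟩

theorem I3' : n ^ 2 * (2 * P) ^ (n - 3) < κ ^ (n - 2) := by
  refine lt_of_le_of_lt ?_ h.I3
  have : 2 * n ^ 2 * (2 * (2 * P) ^ (n - 3)) = 4 * (n ^ 2 * (2 * P) ^ (n - 3)) := by ring
  omega

variable (F : SimpleGraph (Fin n)) (r : Fin n)

/-- rows, nested step -/
theorem step1 (s : Fin n) (hs : F.Adj r s) (i : ℕ) (hi : i + 1 < P) (hci : c ≤ i + 1) :
    (Em F (MC P c) r (.inl ⟨i, by omega⟩)).card <
      (Em F (MC P c) r (.inl ⟨i + 1, hi⟩)).card := by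
  obtain ⟨b1, b2, b3, b4, b5, b6, b7, b8⟩ := h.basic
  have hβ : P - i - 2 < P := by omega
  apply nested_lt F (MC P c) r _ _ {Sum.inr ⟨P - i - 2, hβ⟩}
  · intro hh
    have := congrArg Fin.val (Sum.inl.inj hh)
    simp only at this
    omega
  · rintro (z | z)
    · rw [mem_singleton, mc_ww, mc_ww]
      simp
    · rw [mem_singleton, mc_wt, mc_wt, Sum.inr.injEq, Fin.ext_iff]
      simp only
      have := z.2
      constructor
      · intro hz
        refine ⟨by omega, by omega, fun hh => by cases hh⟩
      · rintro ⟨h1, h2, _⟩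
        omega
  · rintro (z | z) hz hu
    · exact absurd hu (by rw [mc_ww]; exact id)
    · rw [mc_wt] at hu ⊢
      simp only at hu ⊢
      omega
  · rw [card_singleton, card_VV, one_mul]
    have h1 := lb2 F P c (P - k) κ (.inl ⟨i + 1, hi⟩) {Sum.inr ⟨P - i - 2, hβ⟩} r s hs
      (by omega) (by
        intro z hz
        rw [mem_singleton] at hz
        rw [hz, mc_wt]
        simp only
        omega) (by
        intro x hx _
        rw [mc_wt]
        simp only
        omega) (by
        intro z hz x hx _
        rw [mem_singleton] at hz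
        rw [hz, mc_tt, ne_eq, Fin.ext_iff]
        simp only
        omega)
      (fl (Em F (MC P c) r (.inl ⟨i + 1, hi⟩)) (fun φ => ∃ s, F.Adj r s ∧
        φ s ∈ ({Sum.inr ⟨P - i - 2, hβ⟩} : Finset (VV P)))) (by
        intro φ hφ hr hs' _
        rw [mem_fl, mem_Em]
        exact ⟨⟨hφ, hr⟩, s, hs, hs'⟩)
    rw [card_singleton, one_mul] at h1
    exact lt_of_lt_of_le h.I3' h1

/-- columns, nested step -/
theorem step4 (s : Fin n) (hs : F.Adj r s) (p : ℕ) (hp : p + 1 < P) (hcp : c < p + 2) :
    (Em F (MC P c) r (.inr ⟨p, by omega⟩)).card <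
      (Em F (MC P c) r (.inr ⟨p + 1, hp⟩)).card := by
  obtain ⟨b1, b2, b3, b4, b5, b6, b7, b8⟩ := h.basic
  have hβ : P - p - 2 < P := by omega
  apply nested_lt F (MC P c) r _ _ {Sum.inl ⟨P - p - 2, hβ⟩}
  · intro hh
    have := congrArg Fin.val (Sum.inr.inj hh)
    simp only at this
    omega
  · rintro (z | z)
    · rw [mem_singleton, mc_tw, mc_tw, Sum.inl.injEq, Fin.ext_iff]
      simp only
      have := z.2
      constructor
      · intro hz
        refine ⟨by omega, by omega, fun hh => by cases hh⟩
      · rintro ⟨h1, h2, _⟩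
        omega
    · rw [mem_singleton, mc_tt, mc_tt]
      constructor
      · intro hh
        cases hh
      · rintro ⟨_, h2, h3⟩
        exact absurd (by rw [not_not.1 h2]) h3
  · rintro (z | z) hz hu
    · rw [mc_tw] at hu ⊢
      simp only at hu ⊢
      omega
    · rw [mc_tt]
      intro hh
      exact hz (by rw [hh])
  · rw [card_singleton, card_VV, one_mul]
    have key : ∀ lo : ℕ, lo + n * κ ≤ P → (p + 1 < lo ∨ lo + n * κ ≤ p + 1) →
        (∀ x : Fin P, lo ≤ x.1 → x.1 < lo + n * κ → (P ≤ P - p - 2 + x.1 + 1 ∨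
          P - p - 2 + x.1 + 2 ≤ c)) →
        n ^ 2 * (2 * P) ^ (n - 3) < (fl (Em F (MC P c) r (.inr ⟨p + 1, hp⟩))
          (fun φ => ∃ s, F.Adj r s ∧ φ s ∈
            ({Sum.inl ⟨P - p - 2, hβ⟩} : Finset (VV P)))).card := by
      intro lo hlo hv hx
      have h1 := lb2 F P c lo κ (.inr ⟨p + 1, hp⟩) {Sum.inl ⟨P - p - 2, hβ⟩} r s hs
        hlo (by
          intro z hz
          rw [mem_singleton] at hz
          rw [hz, mc_tw]
          simp only
          omega) (by
          intro x hx1 hx2
          rw [mc_tt, ne_eq, Fin.ext_iff]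
          simp only
          omega) (by
          intro z hz x hx1 hx2
          rw [mem_singleton] at hz
          rw [hz, mc_wt]
          exact hx x hx1 hx2)
        (fl (Em F (MC P c) r (.inr ⟨p + 1, hp⟩)) (fun φ => ∃ s, F.Adj r s ∧
          φ s ∈ ({Sum.inl ⟨P - p - 2, hβ⟩} : Finset (VV P)))) (by
          intro φ hφ hr hs' _
          rw [mem_fl, mem_Em]
          exact ⟨⟨hφ, hr⟩, s, hs, hs'⟩)
      rw [card_singleton, one_mul] at h1
      exact lt_of_lt_of_le h.I3' h1
    by_cases hpk : p + 2 + k ≤ P
    · apply key (P - k) (by omega) (by omega)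
      intro x hx1 hx2
      omega
    · apply key 0 (by omega) (by omega)
      intro x hx1 hx2
      omega

/-- from the last row to the first column -/
theorem step3 (s : Fin n) (hs : F.Adj r s) (hP0 : 0 < P) :
    (Em F (MC P c) r (.inl ⟨P - 1, by omega⟩)).card <
      (Em F (MC P c) r (.inr ⟨0, hP0⟩)).card := by
  obtain ⟨b1, b2, b3, b4, b5, b6, b7, b8⟩ := h.basic
  have hD : ∀ z : VV P, z ∈ wb P 0 (c - 1) ↔ ((MC P c).Adj (.inr ⟨0, hP0⟩) z ∧
      ¬ (MC P c).Adj (.inl ⟨P - 1, by omega⟩) z ∧ z ≠ .inl ⟨P - 1, by omega⟩) := by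
    rintro (z | z)
    · rw [mem_wb, mc_tw, mc_ww, ne_eq, Sum.inl.injEq, Fin.ext_iff]
      simp only
      have := z.2
      constructor
      · rintro ⟨x, h1, _, h2⟩
        rw [Sum.inl.inj h1]
        refine ⟨by omega, id, by omega⟩
      · rintro ⟨h1, _, h3⟩
        exact ⟨z, rfl, by omega, by omega⟩
    · rw [mem_wb, mc_tt, mc_wt]
      simp only
      constructor
      · rintro ⟨x, h1, _⟩
        cases h1
      · rintro ⟨_, h2, _⟩
        exfalso
        apply h2
        left
        omega
  apply nested_lt F (MC P c) r _ _ (wb P 0 (c - 1))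
  · intro hh
    cases hh
  · exact hD
  · rintro (z | z) hz hu
    · exact absurd hu (by rw [mc_ww]; exact id)
    · rw [mc_tt]
      intro hh
      exact hz (by rw [hh])
  · rw [card_wb (by omega), card_VV]
    have h1 := lb2 F P c 1 κ (.inr ⟨0, hP0⟩) (wb P 0 κ) r s hs
      (by omega) (by
        intro z hz
        obtain ⟨x, rfl, hx1, hx2⟩ := mem_wb.1 hz
        rw [mc_tw]
        simp only
        omega) (by
        intro x hx _
        rw [mc_tt, ne_eq, Fin.ext_iff]
        simp only
        omega) (by
        intro z hz x hx hx'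
        obtain ⟨x, rfl, hx1, hx2⟩ := mem_wb.1 hz
        rw [mc_wt]
        omega)
      (fl (Em F (MC P c) r (.inr ⟨0, hP0⟩)) (fun φ => ∃ s, F.Adj r s ∧
        φ s ∈ wb P 0 (c - 1))) (by
        intro φ hφ hr hs' _
        rw [mem_fl, mem_Em]
        refine ⟨⟨hφ, hr⟩, s, hs, ?_⟩
        obtain ⟨x, hx0, hx1, hx2⟩ := mem_wb.1 hs'
        exact mem_wb.2 ⟨x, hx0, hx1, by omega⟩)
    rw [card_wb (by omega)] at h1
    refine lt_of_lt_of_le ?_ h1
    have h2 : κ * κ ^ (n - 2) = κ ^ (n - 1) := by
      rw [← pow_succ']
      congr 1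
      have := h.hn
      omega
    rw [h2]
    refine lt_of_le_of_lt ?_ h.I4
    apply Nat.mul_le_mul_left
    apply Nat.mul_le_mul_right
    omega

/-- columns, exchange step -/
theorem step5 (s y : Fin n) (hs : F.Adj r s) (hsy : F.Adj s y) (hyr : y ≠ r) (p : ℕ)
    (hpc : p + 2 ≤ c) (hp0 : p < P) (hp : p + 1 < P) :
    (Em F (MC P c) r (.inr ⟨p, hp0⟩)).card < (Em F (MC P c) r (.inr ⟨p + 1, hp⟩)).card := by
  obtain ⟨b1, b2, b3, b4, b5, b6, b7, b8⟩ := h.basic
  have hβ : P - p - 2 < P := by omega
  have hα : c - p - 2 < P := by omega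
  have hBlow : ∀ s y : Fin n, F.Adj r s → F.Adj s y → y ≠ r → M ^ (n - 2) ≤
      (fl (Em F (MC P c) r (.inr ⟨p + 1, hp⟩)) (fun φ => ∃ s y, F.Adj r s ∧
        φ s = .inl ⟨P - p - 2, hβ⟩ ∧ F.Adj s y ∧ y ≠ r ∧
        ¬ (MC P c).Adj (.inl ⟨c - p - 2, hα⟩) (φ y))).card := by
    intro s y hs hsy hyr
    have h1 := lb2 F P c c M (.inr ⟨p + 1, hp⟩) {Sum.inl ⟨P - p - 2, hβ⟩} r s hs
      (by omega) (by
        intro z hz
        rw [mem_singleton] at hz
        rw [hz, mc_tw]
        simp only
        omega) (by
        intro x hx1 hx2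
        rw [mc_tt, ne_eq, Fin.ext_iff]
        simp only
        omega) (by
        intro z hz x hx1 hx2
        rw [mem_singleton] at hz
        rw [hz, mc_wt]
        simp only
        omega)
      (fl (Em F (MC P c) r (.inr ⟨p + 1, hp⟩)) (fun φ => ∃ s y, F.Adj r s ∧
        φ s = .inl ⟨P - p - 2, hβ⟩ ∧ F.Adj s y ∧ y ≠ r ∧
        ¬ (MC P c).Adj (.inl ⟨c - p - 2, hα⟩) (φ y))) (by
        intro φ hφ hr hs' hb
        rw [mem_fl, mem_Em]
        refine ⟨⟨hφ, hr⟩, s, y, hs, mem_singleton.1 hs', hsy, hyr, ?_⟩
        obtain ⟨x, hx, hx1, hx2⟩ := mem_tb.1 (hb y hyr hsy.ne.symm)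
        have hy1 : (y.1 + 1) * M ≤ n * M := Nat.mul_le_mul_right _ y.2
        have hy2 : (y.1 + 1) * M = y.1 * M + M := by ring
        rw [hx, mc_wt]
        simp only
        omega)
    rw [card_singleton, one_mul] at h1
    exact h1
  apply exchange_lt F (MC P c) r _ _ (.inl ⟨c - p - 2, hα⟩) (.inl ⟨P - p - 2, hβ⟩)
    {Sum.inl ⟨P - p - 2, hβ⟩} _ _ _ _ _ _ _ _ _ _ _ _ rfl
  · intro s y hs hsy hyr
    refine le_trans ?_ (hBlow s y hs hsy hyr)
    refine le_trans (Nat.mul_le_mul_left _ ?_) h.I5
    have h2 := upper3 (V := VV P) r s y hs.ne hyr.symm hsy.ne (.inr ⟨p, hp0⟩)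
      (.inl ⟨c - p - 2, hα⟩) (tb P 0 (p + 1) ∪ tb P (P - c + p + 1) (c - p - 1))
      (fl (Em F (MC P c) r (.inr ⟨p, hp0⟩)) (fun φ => φ s = .inl ⟨c - p - 2, hα⟩ ∧
        φ y ≠ .inl ⟨P - p - 2, hβ⟩ ∧ (MC P c).Adj (.inl ⟨c - p - 2, hα⟩) (φ y) ∧
        ¬ (MC P c).Adj (.inl ⟨P - p - 2, hβ⟩) (φ y))) (by
        intro φ hφ
        rw [mem_fl, mem_Em] at hφ
        obtain ⟨⟨_, g1⟩, g2, _, g3, _⟩ := hφ
        refine ⟨g1, g2, ?_⟩
        rcases hφy : φ y with z | z
        · rw [hφy, mc_ww] at g3
          exact absurd g3 id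
        · rw [hφy, mc_wt] at g3
          simp only at g3
          have := z.2
          rw [mem_union, mem_tb, mem_tb]
          rcases g3 with g3 | g3
          · right
            exact ⟨z, rfl, by omega, by omega⟩
          · left
            exact ⟨z, rfl, by omega, by omega⟩)
    refine h2.trans ?_
    rw [card_VV]
    apply Nat.mul_le_mul_right
    refine (Finset.card_union_le _ _).trans ?_
    have h3 : (tb P 0 (p + 1)).card ≤ p + 1 := card_tb_le
    have h4 : (tb P (P - c + p + 1) (c - p - 1)).card ≤ c - p - 1 := card_tb_le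
    omega
  · rw [card_singleton, card_VV]
    refine lt_of_lt_of_le ?_ (hBlow s y hs hsy hyr)
    refine lt_of_lt_of_le h.I3 (Nat.pow_le_pow_left h.κM _)
  · intro hh
    have := congrArg Fin.val (Sum.inr.inj hh)
    simp only at this
    omega
  · intro hh
    have := congrArg Fin.val (Sum.inl.inj hh)
    simp only at this
    omega
  · exact fun hh => by cases hh
  · exact fun hh => by cases hh
  · exact fun hh => by cases hh
  · exact fun hh => by cases hh
  · rw [mc_tw]
    simp only
    omega
  · rw [mc_tw]
    simp only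
    omega
  · rw [mc_tw]
    simp only
    omega
  · rintro (z | z)
    · rw [mem_singleton, mc_tw, mc_tw, Sum.inl.injEq, Fin.ext_iff]
      simp only
      have := z.2
      constructor
      · intro hz
        refine ⟨by omega, by omega, fun hh => by cases hh⟩
      · rintro ⟨h1, h2, _⟩
        omega
    · rw [mem_singleton, mc_tt, mc_tt]
      constructor
      · intro hh
        cases hh
      · rintro ⟨_, h2, h3⟩
        exact absurd (by rw [not_not.1 h2]) h3
  · rintro (z | z) hz hz' hu
    · rw [mc_tw] at hu ⊢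
      have : z.1 ≠ c - p - 2 := by
        intro hh
        exact hz' (congrArg Sum.inl (Fin.ext hh))
      simp only at hu ⊢
      omega
    · rw [mc_tt]
      intro hh
      exact hz (by rw [hh])

/-- rows, exchange step -/
theorem step2 (hr0 : ∃ s y, F.Adj r s ∧ F.Adj s y ∧ y ≠ r ∧ ¬ F.Adj r y) (i : ℕ)
    (hic : i + 2 ≤ c) (hi0 : i < P) (hi : i + 1 < P) :
    (Em F (MC P c) r (.inl ⟨i, hi0⟩)).card < (Em F (MC P c) r (.inl ⟨i + 1, hi⟩)).card := by
  classical
  obtain ⟨b1, b2, b3, b4, b5, b6, b7, b8⟩ := h.basic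
  have hβ : P - i - 2 < P := by omega
  have hα : c - i - 2 < P := by omega
  obtain ⟨B, hB⟩ : ∃ B, B = fl (Em F (MC P c) r (.inl ⟨i + 1, hi⟩)) (fun φ => ∃ s y, F.Adj r s ∧
        φ s = .inr ⟨P - i - 2, hβ⟩ ∧ F.Adj s y ∧ y ≠ r ∧
        ¬ (MC P c).Adj (.inr ⟨c - i - 2, hα⟩) (φ y)) := ⟨_, rfl⟩
  -- the lower bound
  have hBlow : ∀ s y : Fin n, F.Adj r s → F.Adj s y → y ≠ r → ¬ F.Adj r y →
      ∃ K : ℕ, ∃ g : Fin n → ℕ, K * ∏ a, g a ≤ B.card ∧ κ ≤ K ∧ (∀ a, 1 ≤ g a) ∧
        (∀ a, a ∉ ({r, s, y} : Finset (Fin n)) → κ ≤ g a) ∧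
        2 * n ^ 2 * (i * ∏ a, (if a = r ∨ a = s ∨ a = y then 1 else
          if F.Adj r a ∨ F.Adj y a then c else 2 * P)) ≤ K * ∏ a, g a := by
    intro s y hs hsy hyr hry
    have hsr : s ≠ r := hs.ne.symm
    have hys : y ≠ s := hsy.ne.symm
    have hmemB : ∀ Sy : Finset (VV P), (∀ z ∈ Sy, ¬ (MC P c).Adj (.inr ⟨c - i - 2, hα⟩) z) →
        ∀ φ, IsEmb F (MC P c) φ → φ r = .inl ⟨i + 1, hi⟩ → φ s = .inr ⟨P - i - 2, hβ⟩ →
        φ y ∈ Sy → φ ∈ B := by
      intro Sy hSy φ hφ h1 h2 h3
      rw [hB, mem_fl, mem_Em]
      exact ⟨⟨hφ, h1⟩, s, y, hs, h2, hsy, hyr, hSy _ h3⟩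
    by_cases hik : i + 1 ≤ k
    · -- few rows below: low blocks
      obtain ⟨g, hg⟩ : ∃ g : Fin n → ℕ, g = fun a => if a = r ∨ a = s ∨ a = y then 1 else
          if F.Adj r a ∨ F.Adj y a then b else M := ⟨_, rfl⟩
      refine ⟨n * b - k - 1, g, ?_, ?_, ?_, ?_, ?_⟩
      · have h1 := lb3 F P c (fun a => if F.Adj r a ∨ F.Adj y a then tb P (a.1 * b) b else
            tb P (c + a.1 * M) M) (.inl ⟨i + 1, hi⟩) (.inr ⟨P - i - 2, hβ⟩)
          (wb P (k + 1) (n * b - k - 1)) r s y hs hsy hyr hry ⟨_, rfl⟩ ⟨_, rfl⟩
          (by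
            intro z hz
            obtain ⟨x, hx, _⟩ := mem_wb.1 hz
            exact ⟨x, hx⟩)
          (by
            intro hz
            obtain ⟨x, hx, hx1, _⟩ := mem_wb.1 hz
            have := congrArg Fin.val (Sum.inl.inj hx)
            simp only at this
            omega)
          (by
            intro a z hz
            split_ifs at hz
            · obtain ⟨x, hx, _⟩ := mem_tb.1 hz
              exact ⟨x, hx⟩
            · obtain ⟨x, hx, _⟩ := mem_tb.1 hz
              exact ⟨x, hx⟩)
          (by
            intro a a' haa z hz hz'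
            have ha1 : (a.1 + 1) * b ≤ n * b := Nat.mul_le_mul_right _ a.2
            have ha2 : (a.1 + 1) * b = a.1 * b + b := by ring
            have ha1' : (a'.1 + 1) * b ≤ n * b := Nat.mul_le_mul_right _ a'.2
            have ha2' : (a'.1 + 1) * b = a'.1 * b + b := by ring
            have haa' : a.1 ≠ a'.1 := fun hh => haa (Fin.ext hh)
            split_ifs at hz hz' with g1 g2 g2
            · obtain ⟨x, hx, hx1, hx2⟩ := mem_tb.1 hz
              obtain ⟨x', hx', hx1', hx2'⟩ := mem_tb.1 hz'
              rw [hx] at hx'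
              have hxx := Sum.inr.inj hx'
              subst hxx
              rcases Nat.lt_or_gt_of_ne haa' with hlt | hlt
              · have : (a.1 + 1) * b ≤ a'.1 * b := Nat.mul_le_mul_right _ hlt
                omega
              · have : (a'.1 + 1) * b ≤ a.1 * b := Nat.mul_le_mul_right _ hlt
                omega
            · obtain ⟨x, hx, hx1, hx2⟩ := mem_tb.1 hz
              obtain ⟨x', hx', hx1', hx2'⟩ := mem_tb.1 hz'
              rw [hx] at hx'
              have hxx := Sum.inr.inj hx'
              subst hxx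
              omega
            · obtain ⟨x, hx, hx1, hx2⟩ := mem_tb.1 hz
              obtain ⟨x', hx', hx1', hx2'⟩ := mem_tb.1 hz'
              rw [hx] at hx'
              have hxx := Sum.inr.inj hx'
              subst hxx
              omega
            · obtain ⟨x, hx, hx1, hx2⟩ := mem_tb.1 hz
              obtain ⟨x', hx', hx1', hx2'⟩ := mem_tb.1 hz'
              rw [hx] at hx'
              have hxx := Sum.inr.inj hx'
              subst hxx
              rcases Nat.lt_or_gt_of_ne haa' with hlt | hlt
              · have : (a.1 + 1) * M ≤ a'.1 * M := Nat.mul_le_mul_right _ hlt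
                have : (a.1 + 1) * M = a.1 * M + M := by ring
                omega
              · have : (a'.1 + 1) * M ≤ a.1 * M := Nat.mul_le_mul_right _ hlt
                have : (a'.1 + 1) * M = a'.1 * M + M := by ring
                omega)
          (by
            intro a hz
            have ha1 : (a.1 + 1) * b ≤ n * b := Nat.mul_le_mul_right _ a.2
            have ha2 : (a.1 + 1) * b = a.1 * b + b := by ring
            have ha1' : (a.1 + 1) * M ≤ n * M := Nat.mul_le_mul_right _ a.2
            have ha2' : (a.1 + 1) * M = a.1 * M + M := by ring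
            split_ifs at hz
            · obtain ⟨x, hx, hx1, hx2⟩ := mem_tb.1 hz
              have := congrArg Fin.val (Sum.inr.inj hx)
              simp only at this
              omega
            · obtain ⟨x, hx, hx1, hx2⟩ := mem_tb.1 hz
              have := congrArg Fin.val (Sum.inr.inj hx)
              simp only at this
              omega)
          (by
            rw [mc_wt]
            simp only
            omega)
          (by
            intro z hz
            obtain ⟨x, rfl, hx1, hx2⟩ := mem_wb.1 hz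
            rw [mc_tw]
            simp only
            omega)
          (by
            intro a ha z hz
            rw [if_pos (Or.inl ha)] at hz
            obtain ⟨x, rfl, hx1, hx2⟩ := mem_tb.1 hz
            have ha1 : (a.1 + 1) * b ≤ n * b := Nat.mul_le_mul_right _ a.2
            have ha2 : (a.1 + 1) * b = a.1 * b + b := by ring
            rw [mc_wt]
            simp only
            omega)
          (by
            intro a ha w hw z hz
            rw [if_pos (Or.inr ha)] at hz
            obtain ⟨x, rfl, hx1, hx2⟩ := mem_tb.1 hz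
            obtain ⟨x', rfl, hx1', hx2'⟩ := mem_wb.1 hw
            have ha1 : (a.1 + 1) * b ≤ n * b := Nat.mul_le_mul_right _ a.2
            have ha2 : (a.1 + 1) * b = a.1 * b + b := by ring
            rw [mc_wt]
            omega)
          B (hmemB _ (by
            intro z hz
            obtain ⟨x, rfl, hx1, hx2⟩ := mem_wb.1 hz
            rw [mc_tw]
            simp only
            omega)) g (by rw [hg]; simp) (by rw [hg]; simp) (by rw [hg]; simp)
          (by
            intro a g1 g2 g3
            have ha1 : (a.1 + 1) * b ≤ n * b := Nat.mul_le_mul_right _ a.2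
            have ha2 : (a.1 + 1) * b = a.1 * b + b := by ring
            have ha1' : (a.1 + 1) * M ≤ n * M := Nat.mul_le_mul_right _ a.2
            have ha2' : (a.1 + 1) * M = a.1 * M + M := by ring
            rw [hg]
            simp only
            rw [if_neg (show ¬ (a = r ∨ a = s ∨ a = y) from by tauto)]
            split_ifs
            · exact card_tb (by omega)
            · exact card_tb (by omega))
        rw [card_wb (by omega)] at h1
        exact h1
      · omega
      · intro a
        rw [hg]
        simp only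
        have := h.κb
        split_ifs <;> omega
      · intro a ha
        rw [hg]
        simp only
        have := h.κb
        have := h.κM
        rw [if_neg (by simpa using ha)]
        split_ifs <;> omega
      · have h2 : ∏ a, (if a = r ∨ a = s ∨ a = y then 1 else
            if F.Adj r a ∨ F.Adj y a then c else 2 * P) ≤ (8 * n) ^ n * ∏ a, g a := by
          apply prod_scale
          intro a
          rw [hg]
          simp only
          have := h.hn
          split_ifs
          · omega
          · rw [b2]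
            nlinarith
          · rw [b4]
            nlinarith
        calc 2 * n ^ 2 * (i * ∏ a, (if a = r ∨ a = s ∨ a = y then 1 else
              if F.Adj r a ∨ F.Adj y a then c else 2 * P))
            ≤ 2 * n ^ 2 * (k * ((8 * n) ^ n * ∏ a, g a)) :=
              Nat.mul_le_mul_left _ (Nat.mul_le_mul (by omega) h2)
          _ = (2 * n ^ 2 * (k * (8 * n) ^ n)) * ∏ a, g a := by ring
          _ ≤ (n * b - k - 1) * ∏ a, g a := by
              apply Nat.mul_le_mul_right
              have := h.I1
              omega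
    · -- many rows below: high blocks
      obtain ⟨g, hg⟩ : ∃ g : Fin n → ℕ, g = fun a => if a = r ∨ a = s ∨ a = y then 1 else
          if F.Adj r a then κ else M := ⟨_, rfl⟩
      refine ⟨M, g, ?_, h.κM, ?_, ?_, ?_⟩
      · have h1 := lb3 F P c (fun a => if F.Adj r a then tb P (P - k + a.1 * κ) κ else
            tb P (2 * (n * M) + a.1 * M) M) (.inl ⟨i + 1, hi⟩) (.inr ⟨P - i - 2, hβ⟩)
          (wb P (2 * (n * M)) M) r s y hs hsy hyr hry ⟨_, rfl⟩ ⟨_, rfl⟩
          (by
            intro z hz
            obtain ⟨x, hx, _⟩ := mem_wb.1 hz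
            exact ⟨x, hx⟩)
          (by
            intro hz
            obtain ⟨x, hx, hx1, _⟩ := mem_wb.1 hz
            have := congrArg Fin.val (Sum.inl.inj hx)
            simp only at this
            omega)
          (by
            intro a z hz
            split_ifs at hz
            · obtain ⟨x, hx, _⟩ := mem_tb.1 hz
              exact ⟨x, hx⟩
            · obtain ⟨x, hx, _⟩ := mem_tb.1 hz
              exact ⟨x, hx⟩)
          (by
            intro a a' haa z hz hz'
            have ha1 : (a.1 + 1) * κ ≤ n * κ := Nat.mul_le_mul_right _ a.2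
            have ha2 : (a.1 + 1) * κ = a.1 * κ + κ := by ring
            have ha1' : (a'.1 + 1) * κ ≤ n * κ := Nat.mul_le_mul_right _ a'.2
            have ha2' : (a'.1 + 1) * κ = a'.1 * κ + κ := by ring
            have hb1 : (a.1 + 1) * M ≤ n * M := Nat.mul_le_mul_right _ a.2
            have hb2 : (a.1 + 1) * M = a.1 * M + M := by ring
            have hb1' : (a'.1 + 1) * M ≤ n * M := Nat.mul_le_mul_right _ a'.2
            have hb2' : (a'.1 + 1) * M = a'.1 * M + M := by ring
            have haa' : a.1 ≠ a'.1 := fun hh => haa (Fin.ext hh)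
            split_ifs at hz hz' with g1 g2 g2
            · obtain ⟨x, hx, hx1, hx2⟩ := mem_tb.1 hz
              obtain ⟨x', hx', hx1', hx2'⟩ := mem_tb.1 hz'
              rw [hx] at hx'
              have hxx := Sum.inr.inj hx'
              subst hxx
              rcases Nat.lt_or_gt_of_ne haa' with hlt | hlt
              · have : (a.1 + 1) * κ ≤ a'.1 * κ := Nat.mul_le_mul_right _ hlt
                omega
              · have : (a'.1 + 1) * κ ≤ a.1 * κ := Nat.mul_le_mul_right _ hlt
                omega
            · obtain ⟨x, hx, hx1, hx2⟩ := mem_tb.1 hz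
              obtain ⟨x', hx', hx1', hx2'⟩ := mem_tb.1 hz'
              rw [hx] at hx'
              have hxx := Sum.inr.inj hx'
              subst hxx
              omega
            · obtain ⟨x, hx, hx1, hx2⟩ := mem_tb.1 hz
              obtain ⟨x', hx', hx1', hx2'⟩ := mem_tb.1 hz'
              rw [hx] at hx'
              have hxx := Sum.inr.inj hx'
              subst hxx
              omega
            · obtain ⟨x, hx, hx1, hx2⟩ := mem_tb.1 hz
              obtain ⟨x', hx', hx1', hx2'⟩ := mem_tb.1 hz'
              rw [hx] at hx'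
              have hxx := Sum.inr.inj hx'
              subst hxx
              rcases Nat.lt_or_gt_of_ne haa' with hlt | hlt
              · have : (a.1 + 1) * M ≤ a'.1 * M := Nat.mul_le_mul_right _ hlt
                omega
              · have : (a'.1 + 1) * M ≤ a.1 * M := Nat.mul_le_mul_right _ hlt
                omega)
          (by
            intro a hz
            have hb1 : (a.1 + 1) * M ≤ n * M := Nat.mul_le_mul_right _ a.2
            have hb2 : (a.1 + 1) * M = a.1 * M + M := by ring
            split_ifs at hz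
            · obtain ⟨x, hx, hx1, hx2⟩ := mem_tb.1 hz
              have := congrArg Fin.val (Sum.inr.inj hx)
              simp only at this
              omega
            · obtain ⟨x, hx, hx1, hx2⟩ := mem_tb.1 hz
              have := congrArg Fin.val (Sum.inr.inj hx)
              simp only at this
              omega)
          (by
            rw [mc_wt]
            simp only
            omega)
          (by
            intro z hz
            obtain ⟨x, rfl, hx1, hx2⟩ := mem_wb.1 hz
            rw [mc_tw]
            simp only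
            omega)
          (by
            intro a ha z hz
            rw [if_pos ha] at hz
            obtain ⟨x, rfl, hx1, hx2⟩ := mem_tb.1 hz
            rw [mc_wt]
            simp only
            omega)
          (by
            intro a ha w hw z hz
            obtain ⟨x', rfl, hx1', hx2'⟩ := mem_wb.1 hw
            split_ifs at hz
            · obtain ⟨x, rfl, hx1, hx2⟩ := mem_tb.1 hz
              rw [mc_wt]
              omega
            · obtain ⟨x, rfl, hx1, hx2⟩ := mem_tb.1 hz
              rw [mc_wt]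
              omega)
          B (hmemB _ (by
            intro z hz
            obtain ⟨x, rfl, hx1, hx2⟩ := mem_wb.1 hz
            rw [mc_tw]
            simp only
            omega)) g (by rw [hg]; simp) (by rw [hg]; simp) (by rw [hg]; simp)
          (by
            intro a g1 g2 g3
            have ha1 : (a.1 + 1) * κ ≤ n * κ := Nat.mul_le_mul_right _ a.2
            have ha2 : (a.1 + 1) * κ = a.1 * κ + κ := by ring
            have hb1 : (a.1 + 1) * M ≤ n * M := Nat.mul_le_mul_right _ a.2
            have hb2 : (a.1 + 1) * M = a.1 * M + M := by ring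
            rw [hg]
            simp only
            rw [if_neg (show ¬ (a = r ∨ a = s ∨ a = y) from by tauto)]
            split_ifs
            · exact card_tb (by omega)
            · exact card_tb (by omega))
        rw [card_wb (by omega)] at h1
        exact h1
      · intro a
        rw [hg]
        simp only
        have := h.κM
        split_ifs <;> omega
      · intro a ha
        rw [hg]
        simp only
        have := h.κM
        rw [if_neg (by simpa using ha)]
        split_ifs <;> omega
      · have hC3 := h.hC3'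
        have hn := h.hn
        have h2 : ∏ a, (if a = r ∨ a = s ∨ a = y then 1 else
            if F.Adj r a ∨ F.Adj y a then c else 2 * P) ≤ C3 ^ n * ∏ a, g a := by
          apply prod_scale
          intro a
          have hle : 2 * P ≤ C3 * M := by
            rw [b4]
            have : 8 * n * M ≤ C3 * M := Nat.mul_le_mul_right _ hC3
            nlinarith
          rw [hg]
          simp only
          split_ifs with g1 g2 g3 g4
          · omega
          · exact h.hC3
          · exact le_trans (by omega) hle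
          · exact absurd (Or.inl g4) g2
          · exact hle
        calc 2 * n ^ 2 * (i * ∏ a, (if a = r ∨ a = s ∨ a = y then 1 else
              if F.Adj r a ∨ F.Adj y a then c else 2 * P))
            ≤ 2 * n ^ 2 * (c * (C3 ^ n * ∏ a, g a)) :=
              Nat.mul_le_mul_left _ (Nat.mul_le_mul (by omega) h2)
          _ = (2 * n ^ 2 * (c * C3 ^ n)) * ∏ a, g a := by ring
          _ ≤ M * ∏ a, g a := Nat.mul_le_mul_right _ h.I2
  have hnbr : ∀ j : Fin P, j.1 + 1 ≤ c → ∃ N : Finset (VV P), N.card ≤ c ∧
      ∀ z, (MC P c).Adj (.inl j) z → z ∈ N := by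
    intro j hj
    refine ⟨tb P (P - j.1 - 1) (j.1 + 1) ∪ tb P 0 (c - j.1 - 1), ?_, ?_⟩
    · refine (Finset.card_union_le _ _).trans ?_
      have h3 : (tb P (P - j.1 - 1) (j.1 + 1)).card ≤ j.1 + 1 := card_tb_le
      have h4 : (tb P 0 (c - j.1 - 1)).card ≤ c - j.1 - 1 := card_tb_le
      omega
    · rintro (z | z) hz
      · rw [mc_ww] at hz
        exact absurd hz id
      · rw [mc_wt] at hz
        have := z.2
        rw [mem_union, mem_tb, mem_tb]
        rcases hz with hz | hz
        · left
          exact ⟨z, rfl, by omega, by omega⟩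
        · right
          exact ⟨z, rfl, by omega, by omega⟩
  apply exchange_lt F (MC P c) r _ _ (.inr ⟨c - i - 2, hα⟩) (.inr ⟨P - i - 2, hβ⟩)
    {Sum.inr ⟨P - i - 2, hβ⟩} _ _ _ _ _ _ _ _ _ _ _ B hB
  · intro s y hs hsy hyr
    by_cases hry : F.Adj r y
    · rw [fl_empty]
      · simp
      · intro φ hφ hh
        rw [mem_Em] at hφ
        obtain ⟨⟨hinj, hadj⟩, g1⟩ := hφ
        obtain ⟨g2, g3, g4, g5⟩ := hh
        have g6 := hadj r y hry
        rw [g1] at g6
        rcases hφy : φ y with z | z
        · rw [hφy, mc_ww] at g6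
          exact g6
        · rw [hφy, mc_tt, not_not] at g5
          exact g3 (by rw [hφy, g5])
    · obtain ⟨K, g, hK, _, _, _, hfin⟩ := hBlow s y hs hsy hyr hry
      refine le_trans (Nat.mul_le_mul_left _ ?_) (hfin.trans hK)
      -- union over the rows below
      have hsub : fl (Em F (MC P c) r (.inl ⟨i, hi0⟩)) (fun φ => φ s = .inr ⟨c - i - 2, hα⟩ ∧
          φ y ≠ .inr ⟨P - i - 2, hβ⟩ ∧ (MC P c).Adj (.inr ⟨c - i - 2, hα⟩) (φ y) ∧
          ¬ (MC P c).Adj (.inr ⟨P - i - 2, hβ⟩) (φ y)) ⊆
          (wb P 0 i).biUnion (fun z => fl (Em F (MC P c) r (.inl ⟨i, hi0⟩))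
            (fun φ => φ s = .inr ⟨c - i - 2, hα⟩ ∧ φ y = z)) := by
        intro φ hφ
        rw [mem_fl, mem_Em] at hφ
        obtain ⟨⟨hemb, g1⟩, g2, g3, g4, g5⟩ := hφ
        rw [mem_biUnion]
        rcases hφy : φ y with z | z
        · refine ⟨_, ?_, mem_fl.2 ⟨mem_Em.2 ⟨hemb, g1⟩, g2, hφy⟩⟩
          rw [hφy, mc_tw] at g4 g5
          simp only at g4 g5
          rw [mem_wb]
          refine ⟨z, rfl, by omega, ?_⟩
          have hzi : z.1 ≠ i := by
            intro hh
            apply hyr
            apply hemb.1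
            rw [hφy, g1]
            exact congrArg Sum.inl (Fin.ext hh)
          omega
        · exfalso
          rw [hφy, mc_tt, not_not] at g5
          exact g3 (by rw [hφy, g5])
      refine (Finset.card_le_card hsub).trans (Finset.card_biUnion_le.trans ?_)
      refine (Finset.sum_le_card_nsmul _ _ (∏ a, (if a = r ∨ a = s ∨ a = y then 1 else
          if F.Adj r a ∨ F.Adj y a then c else 2 * P)) ?_).trans ?_
      · intro z hz
        obtain ⟨j, rfl, _, hj⟩ := mem_wb.1 hz
        obtain ⟨Nu, hNu, hNu'⟩ := hnbr ⟨i, hi0⟩ (by simp only; omega)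
        obtain ⟨Nj, hNj, hNj'⟩ := hnbr j (by omega)
        refine (upper (fun a => if a = r then {Sum.inl ⟨i, hi0⟩} else if a = s then
          {Sum.inr ⟨c - i - 2, hα⟩} else if a = y then {Sum.inl j} else
          if F.Adj r a then Nu else if F.Adj y a then Nj else univ) _ ?_).trans ?_
        · intro φ hφ a
          rw [mem_fl, mem_Em] at hφ
          obtain ⟨⟨hemb, g1⟩, g2, g3⟩ := hφ
          split_ifs with e1 e2 e3 e4 e5
          · rw [e1, g1]
            exact mem_singleton_self _
          · rw [e2, g2]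
            exact mem_singleton_self _
          · rw [e3, g3]
            exact mem_singleton_self _
          · apply hNu'
            rw [← g1]
            exact hemb.2 r a e4
          · apply hNj'
            rw [← g3]
            exact hemb.2 y a e5
          · exact mem_univ _
        · apply Finset.prod_le_prod'
          intro a _
          by_cases e1 : a = r
          · simp [e1]
          by_cases e2 : a = s
          · simp [e2, hs.ne.symm]
          by_cases e3 : a = y
          · simp [e3, hyr, hsy.ne.symm]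
          rw [if_neg e1, if_neg e2, if_neg e3,
            if_neg (show ¬ (a = r ∨ a = s ∨ a = y) from by tauto)]
          by_cases e4 : F.Adj r a
          · rw [if_pos e4, if_pos (Or.inl e4)]
            exact hNu
          · rw [if_neg e4]
            by_cases e5 : F.Adj y a
            · rw [if_pos e5, if_pos (Or.inr e5)]
              exact hNj
            · rw [if_neg e5, if_neg (show ¬ (F.Adj r a ∨ F.Adj y a) from by tauto),
                Finset.card_univ, card_VV]
      · rw [smul_eq_mul]
        apply Nat.mul_le_mul_right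
        exact card_wb_le
  · rw [card_singleton, card_VV]
    obtain ⟨s, y, hs, hsy, hyr, hry⟩ := hr0
    obtain ⟨K, g, hK, hκK, hg1, hg2, _⟩ := hBlow s y hs hsy hyr hry
    refine lt_of_lt_of_le ?_ hK
    refine lt_of_lt_of_le h.I3 ?_
    have h3 := prod_lower {r, s, y} κ g hg1 hg2
    have h4 : ({r, s, y} : Finset (Fin n)).card = 3 := by
      rw [Finset.card_eq_three]
      exact ⟨r, s, y, hs.ne, hyr.symm, hsy.ne, rfl⟩
    rw [h4] at h3
    calc κ ^ (n - 2) = κ * κ ^ (n - 3) := by
          rw [← pow_succ']
          congr 1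
          have := h.hn
          omega
      _ ≤ K * ∏ a, g a := Nat.mul_le_mul hκK h3
  · intro hh
    have := congrArg Fin.val (Sum.inl.inj hh)
    simp only at this
    omega
  · intro hh
    have := congrArg Fin.val (Sum.inr.inj hh)
    simp only at this
    omega
  · exact fun hh => by cases hh
  · exact fun hh => by cases hh
  · exact fun hh => by cases hh
  · exact fun hh => by cases hh
  · rw [mc_wt]
    simp only
    omega
  · rw [mc_wt]
    simp only
    omega
  · rw [mc_wt]
    simp only
    omega
  · rintro (z | z)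
    · rw [mem_singleton, mc_ww, mc_ww]
      simp
    · rw [mem_singleton, mc_wt, mc_wt, Sum.inr.injEq, Fin.ext_iff]
      simp only
      have := z.2
      constructor
      · intro hz
        refine ⟨by omega, by omega, fun hh => by cases hh⟩
      · rintro ⟨h1, h2, _⟩
        omega
  · rintro (z | z) hz hz' hu
    · exact absurd hu (by rw [mc_ww]; exact id)
    · rw [mc_wt] at hu ⊢
      have : z.1 ≠ c - i - 2 := by
        intro hh
        exact hz' (congrArg Sum.inr (Fin.ext hh))
      simp only at hu ⊢
      omega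

end Par

end Pool.Agent.Q257.RI
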