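import Pool.Agent.Q257.RI.MC

set_option autoImplicit false
set_option linter.unusedSectionVars false

/-!
Comparisons for a root which is adjacent to all other vertices.
-/

namespace Pool.Agent.Q257.RI

open Finset
open Pool.Agent.Helper517.FIrr (IsEmb card_pinned)

variable {n : ℕ} (F : SimpleGraph (Fin n)) {V : Type} [Fintype V]
  (G : SimpleGraph V) (r : Fin n)

theorem nested_univ (hall : ∀ a, a ≠ r → F.Adj r a) (u v : V)
    (hsub : ∀ z, z ≠ v → G.Adj u z → G.Adj v z)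
    (hex : ∃ φ, IsEmb F G φ ∧ φ r = v ∧ ∃ s, s ≠ r ∧ ¬ G.Adj u (φ s) ∧ φ s ≠ u) :
    (Em F G r u).card < (Em F G r v).card := by
  classical
  obtain ⟨D, hD0⟩ : ∃ D : Finset V, D = fl univ (fun z => G.Adj v z ∧ ¬ G.Adj u z ∧ z ≠ u) :=
    ⟨_, rfl⟩
  have hD : ∀ z, z ∈ D ↔ (G.Adj v z ∧ ¬ G.Adj u z ∧ z ≠ u) := by
    intro z
    rw [hD0, mem_fl]
    simp
  have h1 := nested F G r u v D hD hsub
  have h2 : fl (Em F G r u) (fun φ => ∃ x y, F.Adj x y ∧ φ x = v ∧ φ y ∈ D) = ∅ := by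
    apply fl_empty
    rintro φ hφ ⟨x, y, hxy, hx, hy⟩
    rw [mem_Em] at hφ
    rw [hD] at hy
    have hyr : y ≠ r := by
      intro h
      rw [h, hφ.2] at hy
      exact hy.2.2 rfl
    have h3 := hφ.1.2 r y (hall y hyr)
    rw [hφ.2] at h3
    exact hy.2.1 h3
  rw [h2, card_empty, add_zero] at h1
  obtain ⟨φ, hφ, hr, s, hsr, hs1, hs2⟩ := hex
  have h4 : 0 < (fl (Em F G r v) (fun φ => ∃ s, F.Adj r s ∧ φ s ∈ D)).card := by
    rw [Finset.card_pos]
    refine ⟨φ, ?_⟩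
    rw [mem_fl, mem_Em]
    refine ⟨⟨hφ, hr⟩, s, hall s hsr, ?_⟩
    rw [hD]
    refine ⟨?_, hs1, hs2⟩
    have := hφ.2 r s (hall s hsr)
    rwa [hr] at this
  omega

theorem exchange_univ (hall : ∀ a, a ≠ r → F.Adj r a) (u v α β : V) (huv : u ≠ v) (hαβ : α ≠ β)
    (hαu : α ≠ u) (hαv : α ≠ v) (hβu : β ≠ u) (hβv : β ≠ v)
    (hvα : ¬ G.Adj v α) (hvβ : G.Adj v β) (huβ : ¬ G.Adj u β)
    (hsub : ∀ z, z ≠ v → z ≠ α → G.Adj u z → G.Adj v z)
    (Nα : Finset V) (hNα : ∀ z, G.Adj α z → z ∈ Nα)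
    (hmain : n ^ 2 * (Nα.card * (Fintype.card V) ^ (n - 3)) <
      (fl (Em F G r v) (fun φ => ∃ s y, F.Adj r s ∧ φ s = β ∧ F.Adj s y ∧
        y ≠ r ∧ ¬ G.Adj α (φ y))).card) :
    (Em F G r u).card < (Em F G r v).card := by
  classical
  obtain ⟨D, hD0⟩ : ∃ D : Finset V, D = fl univ (fun z => G.Adj v z ∧ ¬ G.Adj u z ∧ z ≠ u) :=
    ⟨_, rfl⟩
  have hD : ∀ z, z ∈ D ↔ (G.Adj v z ∧ ¬ G.Adj u z ∧ z ≠ u) := by
    intro z
    rw [hD0, mem_fl]
    simp
  have h1 := exchange F G r u v α β D huv hαβ hαu hαv hβu hβv hvα hvβ huβ hD hsub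
  have h2 : (fl (Em F G r u) (fun φ => (∃ x y, F.Adj x y ∧ φ x = v ∧ φ y ∈ D) ∨
          (∃ s, F.Adj r s ∧ φ s = α ∧ ((∃ x, φ x = β) ∨
            ∃ y, F.Adj s y ∧ y ≠ r ∧ G.Adj α (φ y) ∧ ¬ G.Adj β (φ y))))).card ≤
      n ^ 2 * (Nα.card * (Fintype.card V) ^ (n - 3)) := by
    refine le_trans (Finset.card_le_card ?_) (sum_pairs (Em F G r u)
      (fun s y φ => F.Adj r s ∧ F.Adj s y ∧ y ≠ r ∧ φ s = α ∧ φ y ∈ Nα)
      (Nα.card * (Fintype.card V) ^ (n - 3)) ?_)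
    · intro φ hφ
      rw [mem_fl] at hφ ⊢
      obtain ⟨hE, hφ⟩ := hφ
      refine ⟨hE, ?_⟩
      rw [mem_Em] at hE
      rcases hφ with ⟨x, y, hxy, hx, hy⟩ | ⟨s, hs, hsα, ⟨x, hx⟩ | ⟨y, h3, h4, h5, h6⟩⟩
      · exfalso
        rw [hD] at hy
        have hyr : y ≠ r := by
          intro h
          rw [h, hE.2] at hy
          exact hy.2.2 rfl
        have h3 := hE.1.2 r y (hall y hyr)
        rw [hE.2] at h3
        exact hy.2.1 h3
      · exfalso
        have hxr : x ≠ r := by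
          intro h
          rw [h, hE.2] at hx
          exact hβu hx.symm
        have h3 := hE.1.2 r x (hall x hxr)
        rw [hE.2, hx] at h3
        exact huβ h3
      · exact ⟨s, y, hs, h3, h4, hsα, hNα _ h5⟩
    · intro s y
      by_cases hc : F.Adj r s ∧ F.Adj s y ∧ y ≠ r
      · apply upper3 r s y hc.1.ne hc.2.2.symm hc.2.1.ne u α Nα
        intro φ hφ
        rw [mem_fl, mem_Em] at hφ
        exact ⟨hφ.1.2, hφ.2.2.2.2.1, hφ.2.2.2.2.2⟩
      · rw [fl_empty]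
        · simp
        · rintro φ _ ⟨g1, g2, g3, _⟩
          exact hc ⟨g1, g2, g3⟩
  omega

/-! ### values of the counts -/

theorem desc_lt (a k : ℕ) (hk : 1 ≤ k) (hka : k ≤ a + 1) :
    a.descFactorial k < (a + 1).descFactorial k := by
  obtain ⟨k', rfl⟩ : ∃ k', k = k' + 1 := ⟨k - 1, by omega⟩
  rw [Nat.succ_descFactorial_succ, Nat.descFactorial_succ]
  apply Nat.mul_lt_mul_of_pos_right
  · omega
  · exact Nat.descFactorial_pos.2 (by omega)

theorem desc_le (a b k : ℕ) (h : a ≤ b) : a.descFactorial k ≤ b.descFactorial k :=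
  Nat.descFactorial_le k h

theorem card_emb_sub (N : Finset V) : Nat.card ({a : Fin n // a ≠ r} ↪ {z : V // z ∈ N}) =
    N.card.descFactorial (n - 1) := by
  classical
  rw [Nat.card_eq_fintype_card, Fintype.card_embedding_eq, Fintype.card_coe]
  congr 1
  rw [Fintype.card_subtype]
  have : (univ.filter (fun a => a ≠ r)) = univ.erase r := by
    ext a
    simp
  rw [this, Finset.card_erase_of_mem (mem_univ r), Finset.card_univ, Fintype.card_fin]

/-- embeddings with root `v` give embeddings of the other vertices into the neighbourhood -/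
noncomputable def toN (hall : ∀ a, a ≠ r → F.Adj r a) (v : V) (N : Finset V)
    (hN : ∀ z, G.Adj v z → z ∈ N) (φ : {φ // φ ∈ Em F G r v}) :
    {a : Fin n // a ≠ r} ↪ {z : V // z ∈ N} :=
  ⟨fun a => ⟨φ.1 a, by
    apply hN
    have h := mem_Em.1 φ.2
    have h2 := h.1.2 r a (hall a a.2)
    rw [h.2] at h2
    exact h2⟩, by
    intro a b hab
    have h := mem_Em.1 φ.2
    exact Subtype.ext (h.1.1 (congrArg Subtype.val hab))⟩

theorem toN_apply (hall : ∀ a, a ≠ r → F.Adj r a) (v : V) (N : Finset V)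
    (hN : ∀ z, G.Adj v z → z ∈ N) (φ : {φ // φ ∈ Em F G r v}) (a : {a : Fin n // a ≠ r}) :
    ((toN F G r hall v N hN φ a : {z : V // z ∈ N}) : V) = φ.1 a := rfl

theorem toN_inj (hall : ∀ a, a ≠ r → F.Adj r a) (v : V) (N : Finset V)
    (hN : ∀ z, G.Adj v z → z ∈ N) : Function.Injective (toN F G r hall v N hN) := by
  intro φ ψ h
  apply Subtype.ext
  funext a
  by_cases ha : a = r
  · rw [ha, (mem_Em.1 φ.2).2, (mem_Em.1 ψ.2).2]
  · have := congrArg (fun g => ((g ⟨a, ha⟩ : {z : V // z ∈ N}) : V)) h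
    exact this

theorem univ_upper (hall : ∀ a, a ≠ r → F.Adj r a) (v : V) (N : Finset V)
    (hN : ∀ z, G.Adj v z → z ∈ N) : (Em F G r v).card ≤ N.card.descFactorial (n - 1) := by
  classical
  rw [← card_emb_sub r N, ← Fintype.card_coe (Em F G r v), ← Nat.card_eq_fintype_card]
  exact Nat.card_le_card_of_injective _ (toN_inj F G r hall v N hN)

theorem univ_upper_lt (hall : ∀ a, a ≠ r → F.Adj r a) (v : V) (N : Finset V)
    (hN : ∀ z, G.Adj v z → z ∈ N) (a0 b0 : Fin n) (ha0 : a0 ≠ r) (hb0 : b0 ≠ r)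
    (hab : F.Adj a0 b0) (z z' : V) (hz : z ∈ N) (hz' : z' ∈ N) (hzz : z ≠ z')
    (hadj : ¬ G.Adj z z') (hcard : n - 1 ≤ N.card) :
    (Em F G r v).card < N.card.descFactorial (n - 1) := by
  classical
  rw [← card_emb_sub r N, ← Fintype.card_coe (Em F G r v), Nat.card_eq_fintype_card]
  apply Fintype.card_lt_of_injective_not_surjective _ (toN_inj F G r hall v N hN)
  intro hsurj
  have hne : Nonempty ({a : Fin n // a ≠ r} ↪ {z : V // z ∈ N}) := by
    have h1 : 0 < Nat.card ({a : Fin n // a ≠ r} ↪ {z : V // z ∈ N}) := by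
      rw [card_emb_sub r N]
      exact Nat.descFactorial_pos.2 hcard
    exact (Nat.card_pos_iff.1 h1).1
  obtain ⟨g0⟩ := hne
  obtain ⟨g1, hg1⟩ : ∃ g1 : {a : Fin n // a ≠ r} ↪ {z : V // z ∈ N},
      g1 ⟨a0, ha0⟩ = ⟨z, hz⟩ :=
    ⟨g0.trans (Equiv.swap (g0 ⟨a0, ha0⟩) ⟨z, hz⟩).toEmbedding, by simp⟩
  obtain ⟨g2, hg2a, hg2b⟩ : ∃ g2 : {a : Fin n // a ≠ r} ↪ {z : V // z ∈ N},
      g2 ⟨a0, ha0⟩ = ⟨z, hz⟩ ∧ g2 ⟨b0, hb0⟩ = ⟨z', hz'⟩ := by
    refine ⟨g1.trans (Equiv.swap (g1 ⟨b0, hb0⟩) ⟨z', hz'⟩).toEmbedding, ?_, by simp⟩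
    simp only [Function.Embedding.trans_apply, Equiv.coe_toEmbedding, hg1]
    apply Equiv.swap_apply_of_ne_of_ne
    · intro h
      rw [← hg1] at h
      have := congrArg Subtype.val (g1.injective h)
      exact hab.ne this
    · intro h
      exact hzz (congrArg Subtype.val h)
  obtain ⟨φ, hφ⟩ := hsurj g2
  have h1 := toN_apply F G r hall v N hN φ ⟨a0, ha0⟩
  have h2 := toN_apply F G r hall v N hN φ ⟨b0, hb0⟩
  rw [hφ, hg2a] at h1
  rw [hφ, hg2b] at h2
  simp only at h1 h2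
  have h3 := (mem_Em.1 φ.2).1.2 a0 b0 hab
  rw [← h1, ← h2] at h3
  exact hadj h3

/-- embeddings into a clique of neighbours -/
theorem univ_lower (v : V) (C : Finset V) (hC : ∀ z ∈ C, G.Adj v z)
    (hcl : ∀ x ∈ C, ∀ y ∈ C, x ≠ y → G.Adj x y) (A : Finset (Fin n → V))
    (hA : ∀ φ, IsEmb F G φ → φ r = v → (∀ a, a ≠ r → φ a ∈ C) → φ ∈ A) :
    C.card.descFactorial (n - 1) ≤ A.card := by
  have h := card_pinned F G {r} (fun _ => v) C (by
    intro a ha b hb _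
    rw [mem_singleton] at ha hb
    rw [ha, hb]) (by
    intro a _ h
    exact G.loopless.irrefl v (hC v h)) (by
    intro a ha b hb hab
    rw [mem_singleton] at ha hb
    rw [ha, hb] at hab
    exact absurd hab (F.loopless.irrefl r)) (by
    intro a _ b _ _ t ht
    exact hC t ht) hcl A (by
    intro φ h1 h2 h3
    apply hA φ h1 (h2 r (mem_singleton_self r))
    intro a ha
    exact h3 a (by rwa [mem_singleton]))
  rwa [card_singleton] at h

theorem exists_two (v z : V) (a0 : Fin n) (ha0 : a0 ≠ r) (hvz : G.Adj v z) (S : Finset V)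
    (hS : ∀ x ∈ S, G.Adj v x) (hzS : ∀ x ∈ S, G.Adj z x)
    (hcl : ∀ x ∈ S, ∀ y ∈ S, x ≠ y → G.Adj x y) (hcard : n ≤ S.card + 2) :
    ∃ φ, IsEmb F G φ ∧ φ r = v ∧ φ a0 = z := by
  classical
  have h := card_pinned F G {r, a0} (fun a => if a = r then v else z) S (by
    intro a ha b hb hh
    rw [mem_insert, mem_singleton] at ha hb
    rcases ha with rfl | rfl <;> rcases hb with rfl | rfl
    · rfl
    · rw [if_pos rfl, if_neg ha0] at hh
      exact absurd hh hvz.ne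
    · rw [if_pos rfl, if_neg ha0] at hh
      exact absurd hh hvz.ne'
    · rfl) (by
    intro a _ h
    split_ifs at h
    · exact G.loopless.irrefl v (hS v h)
    · exact G.loopless.irrefl z (hzS z h)) (by
    intro a ha b hb hab
    rw [mem_insert, mem_singleton] at ha hb
    rcases ha with rfl | rfl <;> rcases hb with rfl | rfl
    · exact absurd hab (F.loopless.irrefl _)
    · rw [if_pos rfl, if_neg ha0]
      exact hvz
    · rw [if_pos rfl, if_neg ha0]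
      exact hvz.symm
    · exact absurd hab (F.loopless.irrefl _)) (by
    intro a _ b _ _ t ht
    split_ifs
    · exact hS t ht
    · exact hzS t ht) hcl
    (univ.filter (fun φ : Fin n → V => IsEmb F G φ ∧ φ r = v ∧ φ a0 = z)) (by
    intro φ h1 h2 h3
    rw [mem_filter]
    refine ⟨mem_univ _, h1, ?_, ?_⟩
    · have := h2 r (by simp)
      rwa [if_pos rfl] at this
    · have := h2 a0 (by simp)
      rwa [if_neg ha0] at this)
  have h2 : ({r, a0} : Finset (Fin n)).card = 2 := Finset.card_pair ha0.symm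
  rw [h2] at h
  have h3 : 0 < S.card.descFactorial (n - 2) := Nat.descFactorial_pos.2 (by omega)
  obtain ⟨φ, hφ⟩ := Finset.card_pos.1 (h3.trans_le h)
  exact ⟨φ, (mem_filter.1 hφ).2⟩

theorem univ_lower_lt (v z : V) (C S : Finset V) (hC : ∀ x ∈ C, G.Adj v x)
    (hcl : ∀ x ∈ C, ∀ y ∈ C, x ≠ y → G.Adj x y) (hvz : G.Adj v z) (hzC : z ∉ C)
    (hSC : S ⊆ C) (hzS : ∀ x ∈ S, G.Adj z x) (hcard : n ≤ S.card + 2)
    (a0 : Fin n) (ha0 : a0 ≠ r) :
    C.card.descFactorial (n - 1) < (Em F G r v).card := by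
  classical
  obtain ⟨φ, h1, h2, h3⟩ := exists_two F G r v z a0 ha0 hvz S (fun x hx => hC x (hSC hx)) hzS
    (fun x hx y hy => hcl x (hSC hx) y (hSC hy)) hcard
  have h4 := univ_lower F G r v C hC hcl ((Em F G r v).erase φ) (by
    intro ψ g1 g2 g3
    rw [mem_erase, mem_Em]
    refine ⟨?_, g1, g2⟩
    rintro rfl
    exact hzC (h3 ▸ g3 a0 ha0))
  have h5 : φ ∈ Em F G r v := mem_Em.2 ⟨h1, h2⟩
  have h6 := Finset.card_erase_lt_of_mem h5
  omega

end Pool.Agent.Q257.RI
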